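import Pool.Agent.H76.TY.Defs

/-! A stuck row can only be placed after a repair. -/

namespace Pool.Agent.H76.TY

open Finset Pool.Agent.H46.SR Pool.Agent.H46.TS

namespace Par

variable (P : Par)

theorem det_x0 {i : Fin P.L} {β : ℕ} {x : Fin P.N} (hx : x.val / P.T i.val = β) {j : Fin P.L}
    (hj : i ≤ j) : dv (P.T j.val) x = dv (P.T j.val) (P.x0 i β) := by
  have hle : β * P.T i.val ≤ x.val := by
    rw [← hx]
    exact Nat.div_mul_le_self _ _
  have hx0 : (P.x0 i β).val = β * P.T i.val := by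
    show β * P.T i.val % P.N = β * P.T i.val
    exact Nat.mod_eq_of_lt (lt_of_le_of_lt hle x.2)
  have hj' : i.val ≤ j.val := hj
  obtain ⟨s, hs⟩ := P.T_dvd hj'
  apply Fin.ext
  show x.val / P.T j.val = (P.x0 i β).val / P.T j.val
  rw [hx0, hs, ← Nat.div_div_eq_div_mul, ← Nat.div_div_eq_div_mul, hx,
    Nat.mul_div_cancel _ (P.T_pos i.val)]

theorem det_tp {i : Fin P.L} {β : ℕ} {x : Fin P.N} (hx : x.val / P.T i.val = β) (ω : P.Sp)
    {j : Fin P.L} (hj : i ≤ j) (y : Fin P.N) : P.tp ω j x y = P.tp ω j (P.x0 i β) y := by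
  unfold tp
  rw [P.det_x0 hx hj]

theorem det_fl {i : Fin P.L} {β : ℕ} {x : Fin P.N} (hx : x.val / P.T i.val = β) (ω : P.Sp)
    {l : Fin P.L} (hl : i ≤ l) (k : Fin (P.G + 1)) (y : Fin P.N) :
    P.fl ω l k x y = P.fl ω l k (P.x0 i β) y := by
  have h1 : P.cv ω l x y = P.cv ω l (P.x0 i β) y := by
    funext i'
    unfold cv
    by_cases h : l < i'
    · rw [if_pos h, if_pos h, P.det_tp hx ω (hl.trans h.le)]
    · rw [if_neg h, if_neg h]
  unfold fl fc
  rw [h1, P.det_x0 hx hl]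

theorem det_hi {i : Fin P.L} {β : ℕ} {x : Fin P.N} (hx : x.val / P.T i.val = β) (ω : P.Sp)
    (y : Fin P.N) : P.hi ω i x y = P.hi ω i (P.x0 i β) y := by
  unfold hi
  apply Finset.sum_congr rfl
  intro s hs
  rw [mem_filter] at hs
  exact P.det_fl hx ω hs.2 s.2 y

theorem det {ψ : Fin (P.z ^ P.D) → Fin P.N} {i : Fin P.L} {β : ℕ} {γ : ZMod 2} {j : Fin P.K}
    {r : P.Rr} {ω : P.Sp} (hS : P.Stk ω ψ i β γ j r) (hP : P.Plc ω ψ i β γ r) :
    P.Rep ω ψ i β r := by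
  obtain ⟨x, hx, hcol⟩ := hP
  refine ⟨x, hx, ?_⟩
  intro l
  have h1 := hcol l
  have h2 := (hS l).1
  rw [← P.det_hi hx] at h2
  obtain ⟨y, hy⟩ : ∃ y, y = ψ (P.lf r l) := ⟨_, rfl⟩
  rw [← hy] at h1 h2 ⊢
  unfold col at h1
  unfold hi at h2
  rw [← Finset.sum_filter_add_sum_filter_not univ (fun s : Fin P.L × Fin (P.G + 1) => i ≤ s.1),
    h2] at h1
  have h3 : (∑ s ∈ univ.filter (fun s : Fin P.L × Fin (P.G + 1) => ¬ i ≤ s.1),
      P.fl ω s.1 s.2 x y) ≠ 0 := by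
    intro h4
    rw [h4, add_zero] at h1
    revert h1
    generalize γ = g
    revert g
    decide
  obtain ⟨s, hs, hne⟩ := Finset.exists_ne_zero_of_sum_ne_zero h3
  rw [mem_filter] at hs
  refine ⟨s, not_le.mp hs.2, ?_⟩
  unfold fl at hne ⊢
  split_ifs at hne ⊢ with h4
  · rfl
  · exact absurd rfl hne

end Par

end Pool.Agent.H76.TY
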