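import Pool.Agent.H76.TY.Defs

/-! Stuck rows: dependence on few coordinates, probability. -/

namespace Pool.Agent.H76.TY

open Finset Pool.Agent.H46.SR Pool.Agent.H46.TS

namespace Par

variable (P : Par)

theorem MatP_cv {v w : P.Sp} (i : Fin P.L) (k : Fin (P.G + 1)) (β : ℕ) {l : Fin P.L} (hl : i ≤ l)
    (x y : Fin P.N) : P.cv (mix (P.D3 i k β) v w) l x y = P.cv v l x y := by
  funext i'
  unfold cv
  by_cases h : l < i'
  · rw [if_pos h, if_pos h]
    unfold tp
    rw [mix_not_mem]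
    rintro ⟨h1, -, -⟩
    rw [lvc_cT] at h1
    have h2 : i < i' := lt_of_le_of_lt hl h
    exact absurd h1 (ne_of_gt h2)
  · rw [if_neg h, if_neg h]

theorem MatP_fl {v w : P.Sp} (i : Fin P.L) (k : Fin (P.G + 1)) (β : ℕ) {l : Fin P.L}
    {k' : Fin (P.G + 1)} (hl : i ≤ l) (hne : (l, k') ≠ (i, k)) (x y : Fin P.N) :
    P.fl (mix (P.D3 i k β) v w) l k' x y = P.fl v l k' x y := by
  unfold fl fc
  rw [P.MatP_cv i k β hl, mix_not_mem]
  rintro ⟨h1, -, h3⟩
  rw [lvc_cF] at h1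
  have h4 := h3 _ rfl
  apply hne
  exact Prod.ext h1 h4

theorem MatP_hi {v w : P.Sp} (i : Fin P.L) (k : Fin (P.G + 1)) (β : ℕ) (y : Fin P.N) :
    P.hi (mix (P.D3 i k β) v w) i (P.x0 i β) y = P.bas v i k (P.x0 i β) y +
      (if (w (P.cF ((i, k), (dv (P.T i.val) (P.x0 i β), dv (P.U k.val) y),
        P.cv v i (P.x0 i β) y))).1.val < P.th i.val then 1 else 0) := by
  have h0 : univ.filter (fun s : Fin P.L × Fin (P.G + 1) => i ≤ s.1 ∧ s ≠ (i, k)) =
      (univ.filter (fun s : Fin P.L × Fin (P.G + 1) => i ≤ s.1)).erase (i, k) := by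
    ext s
    rw [mem_erase, mem_filter, mem_filter]
    constructor
    · rintro ⟨h1, h2, h3⟩
      exact ⟨h3, h1, h2⟩
    · rintro ⟨h3, h1, h2⟩
      exact ⟨h1, h2, h3⟩
  have hmem : ((i, k) : Fin P.L × Fin (P.G + 1)) ∈
      univ.filter (fun s : Fin P.L × Fin (P.G + 1) => i ≤ s.1) := by
    rw [mem_filter]
    exact ⟨mem_univ _, le_refl _⟩
  have h1 : P.hi (mix (P.D3 i k β) v w) i (P.x0 i β) y =
      P.bas (mix (P.D3 i k β) v w) i k (P.x0 i β) y +
        P.fl (mix (P.D3 i k β) v w) i k (P.x0 i β) y := by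
    unfold hi bas
    rw [h0]
    exact (Finset.sum_erase_add _ _ hmem).symm
  rw [h1]
  congr 1
  · unfold bas
    apply Finset.sum_congr rfl
    intro s hs
    rw [mem_filter] at hs
    exact P.MatP_fl i k β hs.2.1 hs.2.2 _ _
  · unfold fl fc
    rw [P.MatP_cv i k β (le_refl i), mix_mem]
    refine ⟨rfl, rfl, ?_⟩
    intro f hf
    rw [P.cF_inj] at hf
    rw [← hf]

theorem MatP_tp {v w : P.Sp} (i : Fin P.L) (k : Fin (P.G + 1)) (β : ℕ) (y : Fin P.N) :
    P.tp (mix (P.D3 i k β) v w) i (P.x0 i β) y =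
      (w (P.cT (i, dv (P.T i.val) (P.x0 i β), y))).2 := by
  unfold tp
  rw [mix_mem]
  refine ⟨rfl, rfl, ?_⟩
  intro f hf
  exact absurd hf (P.cT_ne_cF f _)

theorem MatP_z2 (x : ZMod 2) : x = 0 ∨ x = 1 := by
  revert x; decide

theorem MatP_av_lt {Q m : ℕ} (hm : m ≤ Q) :
    av (fun b : Fin Q => ind (b.val < m)) = (m : ℝ) / (Q : ℝ) := by
  unfold av
  rw [Fintype.card_fin]
  congr 1
  rw [Fin.sum_univ_eq_sum_range (fun x => ind (x < m)) Q]
  have h1 : ∀ x ∈ range Q, ind (x < m) = if x < m then (1 : ℝ) else 0 := by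
    intro x _
    by_cases h : x < m
    · rw [ind_pos h, if_pos h]
    · rw [ind_neg h, if_neg h]
  rw [Finset.sum_congr rfl h1, Finset.sum_boole]
  have h2 : (range Q).filter (fun x => x < m) = range m := by
    ext x
    rw [mem_filter, mem_range, mem_range]
    omega
  rw [h2, card_range]

theorem MatP_av_th (i : ℕ) :
    av (fun b : Fin P.Q => ind (b.val < P.th i)) = 1 / ((P.z ^ P.kap i : ℕ) : ℝ) := by
  have h2 := P.th_two i
  have h3 := P.th_mul i
  rw [MatP_av_lt (by omega)]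
  have ht : (0 : ℝ) < (P.th i : ℝ) := by exact_mod_cast P.th_pos i
  have hz : (0 : ℝ) < ((P.z ^ P.kap i : ℕ) : ℝ) := by
    have := P.zk_ge i
    exact_mod_cast (by omega : 0 < P.z ^ P.kap i)
  rw [← h3, Nat.cast_mul, div_eq_div_iff (mul_pos ht hz).ne' hz.ne']
  ring

theorem MatP_av_flip (i : ℕ) (e : ZMod 2) :
    1 / ((P.z ^ P.kap i : ℕ) : ℝ) ≤
      av (fun a : P.V => ind ((if a.1.val < P.th i then (1 : ZMod 2) else 0) = e)) := by
  rw [av_prod]
  have h0 : ∀ a : Fin P.Q, av (fun b : P.Ty =>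
      ind ((if ((a, b) : P.V).1.val < P.th i then (1 : ZMod 2) else 0) = e)) =
      ind ((if a.val < P.th i then (1 : ZMod 2) else 0) = e) := fun a =>
    av_const (Ω := P.Ty) (ind ((if a.val < P.th i then (1 : ZMod 2) else 0) = e))
  rw [av_congr h0]
  have hz : (2 : ℝ) ≤ ((P.z ^ P.kap i : ℕ) : ℝ) := by exact_mod_cast P.zk_ge i
  rcases MatP_z2 e with h | h
  · subst h
    have h1 : ∀ b : Fin P.Q, ind ((if b.val < P.th i then (1 : ZMod 2) else 0) = 0) =
        1 + (-1) * ind (b.val < P.th i) := by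
      intro b
      by_cases hb : b.val < P.th i
      · rw [if_pos hb, ind_pos hb, ind_neg (by decide)]; ring
      · rw [if_neg hb, ind_neg hb, ind_pos rfl]; ring
    rw [av_congr h1, av_add, av_mul_left, av_const, P.MatP_av_th i]
    have h4 : 1 / ((P.z ^ P.kap i : ℕ) : ℝ) ≤ 1 / 2 :=
      one_div_le_one_div_of_le (by norm_num) hz
    linarith
  · subst h
    rw [← P.MatP_av_th i]
    apply le_of_eq
    apply av_congr
    intro b
    by_cases hb : b.val < P.th i
    · rw [if_pos hb, ind_pos hb, ind_pos rfl]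
    · rw [if_neg hb, ind_neg hb, ind_neg (by decide)]

theorem MatP_av_eq {B : Type*} [Fintype B] (b0 : B) :
    av (fun b : B => ind (b = b0)) = 1 / (Fintype.card B : ℝ) := by
  classical
  unfold av
  congr 1
  have h1 : ∀ b ∈ (univ : Finset B), ind (b = b0) = if b = b0 then (1 : ℝ) else 0 := by
    intro b _
    by_cases h : b = b0
    · rw [ind_pos h, if_pos h]
    · rw [ind_neg h, if_neg h]
  rw [Finset.sum_congr rfl h1, Finset.sum_ite_eq' univ b0 (fun _ => (1 : ℝ)),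
    if_pos (mem_univ _)]

theorem MatP_av_ty (t : P.Ty) :
    av (fun a : P.V => ind (a.2 = t)) = 1 / ((P.K * P.d : ℕ) : ℝ) := by
  rw [av_prod]
  have h0 : ∀ a : Fin P.Q, av (fun b : P.Ty => ind (((a, b) : P.V).2 = t)) =
      1 / ((P.K * P.d : ℕ) : ℝ) := by
    intro a
    have h1 := MatP_av_eq t
    rw [Fintype.card_prod, Fintype.card_fin, Fintype.card_fin] at h1
    exact h1
  rw [av_congr h0, av_const]

/-- Resampling the coordinates `D3` changes, among the flips of level at least `i`, only the flip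
of level `i` and scale `F.k`; the vectors of types `cv` of the levels `≥ i` do not change. -/
theorem stk_dep {ψ : Fin (P.z ^ P.D) → Fin P.N} (F : P.Prof ψ) (i : Fin P.L) (β : ℕ) (γ : ZMod 2)
    (j : Fin P.K) (v : P.Sp) (r : P.Rr) (w w' : P.Sp) (h : ∀ c ∈ P.Cz F r, w c = w' c) :
    P.Stk (mix (P.D3 i F.k β) v w) ψ i β γ j r ↔ P.Stk (mix (P.D3 i F.k β) v w') ψ i β γ j r := by
  have key : ∀ l : Fin P.d,
      (P.hi (mix (P.D3 i F.k β) v w) i (P.x0 i β) (ψ (P.lf r l)) = γ + 1 ∧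
        P.tp (mix (P.D3 i F.k β) v w) i (P.x0 i β) (ψ (P.lf r l)) = (j, l)) ↔
      (P.hi (mix (P.D3 i F.k β) v w') i (P.x0 i β) (ψ (P.lf r l)) = γ + 1 ∧
        P.tp (mix (P.D3 i F.k β) v w') i (P.x0 i β) (ψ (P.lf r l)) = (j, l)) := by
    intro l
    have h1 : w (P.cF ((i, F.k), (dv (P.T i.val) (P.x0 i β), dv (P.U F.k.val) (ψ (P.lf r l))),
        P.cv v i (P.x0 i β) (ψ (P.lf r l)))) =
        w' (P.cF ((i, F.k), (dv (P.T i.val) (P.x0 i β), dv (P.U F.k.val) (ψ (P.lf r l))),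
        P.cv v i (P.x0 i β) (ψ (P.lf r l)))) := by
      apply h
      unfold Cz
      rw [mem_filter]
      exact ⟨mem_univ _, l, rfl⟩
    have h2 : w (P.cT (i, dv (P.T i.val) (P.x0 i β), ψ (P.lf r l))) =
        w' (P.cT (i, dv (P.T i.val) (P.x0 i β), ψ (P.lf r l))) := by
      apply h
      unfold Cz
      rw [mem_filter]
      exact ⟨mem_univ _, l, rfl⟩
    rw [P.MatP_hi, P.MatP_hi, P.MatP_tp, P.MatP_tp, h1, h2]
  unfold Stk
  exact forall_congr' key

/-- Proof: `hi = bas + fl i F.k`, `bas` and `cv` are those of `v`, so they are the same for all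
leaves; the leaves are in one cell of scale `F.k` (`F.hb`, all leaves are in the block of length
`z` of the base column), so the flip of level `i` and scale `F.k` is one coordinate `P.cF c0`
(the same for all leaves); the types are the coordinates `P.cT (i, dv (T i) (x0 i β), ψ leaf)`,
different for different leaves.  Use `av_coords` for `Option (Fin P.d)`. -/
theorem av_stk {ψ : Fin (P.z ^ P.D) → Fin P.N} (hψ : StrictMono ψ) (F : P.Prof ψ) (i : Fin P.L)
    (β : ℕ) (γ : ZMod 2) (j : Fin P.K) (v : P.Sp) (κ : ZMod 2 × (Fin P.L → P.Ty)) {r : P.Rr}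
    (hr : P.Gd F v i β κ r) :
    P.pst i.val ≤ av (fun w : P.Sp => ind (P.Stk (mix (P.D3 i F.k β) v w) ψ i β γ j r)) := by
  classical
  have hcell : ∀ l : Fin P.d, dv (P.U F.k.val) (ψ (P.lf r l)) =
      dv (P.U F.k.val) (ψ (P.lf r ⟨0, P.hd⟩)) := by
    intro l
    apply Fin.ext
    apply F.hb _ (hr.1 ⟨0, P.hd⟩).1
    show pl P.z r.1.val (r.2 l).val / P.z = pl P.z r.1.val (r.2 ⟨0, P.hd⟩).val / P.z
    rw [pl_div P.zpos, pl_div P.zpos]
  have hcls : ∀ l : Fin P.d, P.bas v i F.k (P.x0 i β) (ψ (P.lf r l)) = κ.1 ∧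
      P.cv v i (P.x0 i β) (ψ (P.lf r l)) = κ.2 := by
    intro l
    have h1 := (hr.1 l).2
    unfold cls at h1
    rw [← h1]
    exact ⟨rfl, rfl⟩
  obtain ⟨c0, hc0⟩ : ∃ c0 : P.FC, c0 = ((i, F.k), (dv (P.T i.val) (P.x0 i β),
      dv (P.U F.k.val) (ψ (P.lf r ⟨0, P.hd⟩))), κ.2) := ⟨_, rfl⟩
  obtain ⟨σ, hσn, hσs⟩ : ∃ σ : Option (Fin P.d) → P.Co, σ none = P.cF c0 ∧
      ∀ l, σ (some l) = P.cT (i, dv (P.T i.val) (P.x0 i β), ψ (P.lf r l)) :=
    ⟨fun o => o.elim (P.cF c0) (fun l => P.cT (i, dv (P.T i.val) (P.x0 i β), ψ (P.lf r l))),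
      rfl, fun _ => rfl⟩
  have hinj : Function.Injective σ := by
    intro a b hab
    rcases a with _ | a
    · rcases b with _ | b
      · rfl
      · rw [hσn, hσs] at hab
        exact absurd hab (P.cF_ne_cT _ _)
    · rcases b with _ | b
      · rw [hσn, hσs] at hab
        exact absurd hab (P.cT_ne_cF _ _)
      · rw [hσs, hσs, P.cT_inj] at hab
        have h1 : ψ (P.lf r a) = ψ (P.lf r b) := congrArg (fun t : P.TC => t.2.2) hab
        have h2 : P.lf r a = P.lf r b := hψ.injective h1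
        by_contra hne
        exact hr.2 a b (fun h3 => hne (congrArg some h3)) h2
  obtain ⟨q, hqn, hqs⟩ : ∃ q : Option (Fin P.d) → P.V → Prop,
      (∀ a, q none a = ((if a.1.val < P.th i.val then (1 : ZMod 2) else 0) = γ + 1 - κ.1)) ∧
      ∀ l a, q (some l) a = (a.2 = (j, l)) :=
    ⟨fun o a => o.elim ((if a.1.val < P.th i.val then (1 : ZMod 2) else 0) = γ + 1 - κ.1)
      (fun l => a.2 = (j, l)), fun _ => rfl, fun _ _ => rfl⟩
  have h1 : ∀ w : P.Sp, ∏ o, (fun (o : Option (Fin P.d)) (a : P.V) => ind (q o a)) o (w (σ o)) ≤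
      ind (P.Stk (mix (P.D3 i F.k β) v w) ψ i β γ j r) := by
    intro w
    have h2 : ∏ o, (fun (o : Option (Fin P.d)) (a : P.V) => ind (q o a)) o (w (σ o)) =
        ind (∀ o, q o (w (σ o))) := by
      rw [ind_forall]
    rw [h2]
    apply ind_mono
    intro h3
    have h4 := h3 none
    rw [hqn, hσn, hc0] at h4
    unfold Stk
    intro l
    have h5 := h3 (some l)
    rw [hqs, hσs] at h5
    rw [P.MatP_hi, P.MatP_tp, (hcls l).1, (hcls l).2, hcell l, h4]
    exact ⟨by ring, h5⟩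
  refine le_trans ?_ (av_mono h1)
  rw [av_coords σ hinj (fun (o : Option (Fin P.d)) (a : P.V) => ind (q o a)),
    Fintype.prod_option]
  unfold pst
  have h6 : ∀ l : Fin P.d, av (fun a : P.V => ind (q (some l) a)) =
      1 / ((P.K * P.d : ℕ) : ℝ) := by
    intro l
    rw [← P.MatP_av_ty (j, l)]
    apply av_congr
    intro a
    rw [hqs]
  have h7 : 1 / ((P.z ^ P.kap i.val : ℕ) : ℝ) ≤ av (fun a : P.V => ind (q none a)) := by
    refine (P.MatP_av_flip i.val (γ + 1 - κ.1)).trans (le_of_eq ?_)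
    apply av_congr
    intro a
    rw [hqn]
  rw [Finset.prod_congr rfl (fun l _ => h6 l), Finset.prod_const, Finset.card_univ,
    Fintype.card_fin]
  exact mul_le_mul_of_nonneg_right h7 (by positivity)

end Par

end Pool.Agent.H76.TY
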