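import Pool.Agent.H76.TY.Defs

/-! The probability that one stuck row of every type group can be repaired. -/

namespace Pool.Agent.H76.TY

open Finset Pool.Agent.H46.SR Pool.Agent.H46.TS

namespace Par

variable (P : Par)

theorem RepP_sum_div (n l β : ℕ) (hl : 0 < l) :
    ∑ x : Fin n, ind (x.val / l = β) ≤ (l : ℝ) := by
  classical
  have h1 : ∀ x : Fin n, ind (x.val / l = β) = if x.val / l = β then (1 : ℝ) else 0 := by
    intro x
    by_cases h : x.val / l = β
    · rw [ind_pos h, if_pos h]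
    · rw [ind_neg h, if_neg h]
  rw [Finset.sum_congr rfl (fun x _ => h1 x), ← Finset.sum_filter, Finset.sum_const, nsmul_eq_mul,
    mul_one]
  have h2 : (univ.filter (fun x : Fin n => x.val / l = β)).card ≤ (range l).card := by
    apply Finset.card_le_card_of_injOn (fun x : Fin n => x.val % l)
    · intro x _
      simp only [coe_range, Set.mem_Iio]
      exact Nat.mod_lt _ hl
    · intro x hx x' hx' h
      simp only [coe_filter, mem_univ, true_and, Set.mem_ofPred_eq] at hx hx'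
      have h3 : x.val % l = x'.val % l := h
      apply Fin.ext
      rw [← Nat.div_add_mod x.val l, ← Nat.div_add_mod x'.val l, hx, hx', h3]
  rw [card_range] at h2
  exact_mod_cast h2

/-- the point of a time cell of level `0` -/
def RepP_pt (ξ : Fin P.N) : Fin P.N := ⟨ξ.val * P.T 0 % P.N, Nat.mod_lt _ P.N_pos⟩

theorem RepP_dv_pt (l : ℕ) (x : Fin P.N) :
    dv (P.T l) (P.RepP_pt (dv (P.T 0) x)) = dv (P.T l) x := by
  apply Fin.ext
  have h1 : x.val / P.T 0 * P.T 0 ≤ x.val := Nat.div_mul_le_self _ _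
  have h2 : (P.RepP_pt (dv (P.T 0) x)).val = x.val / P.T 0 * P.T 0 :=
    Nat.mod_eq_of_lt (lt_of_le_of_lt h1 x.2)
  show (P.RepP_pt (dv (P.T 0) x)).val / P.T l = x.val / P.T l
  rw [h2]
  obtain ⟨w, hw⟩ := P.T_dvd (Nat.zero_le l)
  rw [hw, ← Nat.div_div_eq_div_mul, Nat.mul_div_cancel _ (P.T_pos 0), Nat.div_div_eq_div_mul]

theorem RepP_tp_pt (ω : P.Sp) (i : Fin P.L) (x y : Fin P.N) :
    P.tp ω i (P.RepP_pt (dv (P.T 0) x)) y = P.tp ω i x y := by
  unfold tp
  rw [RepP_dv_pt]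

theorem RepP_cv_pt (ω : P.Sp) (l : Fin P.L) (x y : Fin P.N) :
    P.cv ω l (P.RepP_pt (dv (P.T 0) x)) y = P.cv ω l x y := by
  unfold cv
  funext i
  rw [RepP_tp_pt]

theorem RepP_fc_pt (ω : P.Sp) (l : Fin P.L) (k : Fin (P.G + 1)) (x y : Fin P.N) :
    P.fc ω l k (P.RepP_pt (dv (P.T 0) x)) y = P.fc ω l k x y := by
  unfold fc
  rw [RepP_dv_pt, RepP_cv_pt]

/-- the flip coordinates only depend on the types -/
theorem RepP_fc_congr {ω ω' : P.Sp} (h : ∀ t : P.TC, ω (P.cT t) = ω' (P.cT t)) (l : Fin P.L)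
    (k : Fin (P.G + 1)) (x y : Fin P.N) : P.fc ω l k x y = P.fc ω' l k x y := by
  have h1 : ∀ i x y, P.tp ω i x y = P.tp ω' i x y := by
    intro i x y
    unfold tp
    rw [h]
  unfold fc cv
  simp only [h1]

/-- a flip coordinate of level below `i` at a point of the cell lies in `Dl` -/
theorem RepP_mem_Dl {i : Fin P.L} {β : ℕ} {l : Fin P.L} (hl : l < i) (k : Fin (P.G + 1))
    {x : Fin P.N} (hx : x.val / P.T i.val = β) (ω : P.Sp) (y : Fin P.N) :
    P.cF (P.fc ω l k x y) ∈ P.Dl i β := by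
  refine ⟨hl, ?_⟩
  show x.val / P.T l.val / (P.T i.val / P.T l.val) = β
  obtain ⟨w, hw⟩ := P.T_dvd (le_of_lt hl : l.val ≤ i.val)
  rw [Nat.div_div_eq_div_mul, hw, Nat.mul_div_cancel_left _ (P.T_pos _), ← hw, hx]

/-- the type of level `i` in the cell -/
theorem RepP_tp_mix {i : Fin P.L} {β : ℕ} {x : Fin P.N} (hx : x.val / P.T i.val = β)
    (v w : P.Sp) (y : Fin P.N) :
    P.tp (mix (P.Dl i β) v w) i x y = P.tp v i (P.x0 i β) y := by
  unfold tp
  have h1 : P.cT (i, dv (P.T i.val) x, y) ∉ P.Dl i β := by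
    intro h
    exact lt_irrefl _ h.1
  rw [mix_not_mem h1]
  have h2 : β * P.T i.val ≤ x.val := by rw [← hx]; exact Nat.div_mul_le_self _ _
  have h3 : (P.x0 i β).val = β * P.T i.val := Nat.mod_eq_of_lt (lt_of_le_of_lt h2 x.2)
  have h4 : dv (P.T i.val) x = dv (P.T i.val) (P.x0 i β) := by
    apply Fin.ext
    show x.val / P.T i.val = (P.x0 i β).val / P.T i.val
    rw [h3, hx, Nat.mul_div_cancel _ (P.T_pos _)]
  rw [h4]

theorem RepP_fl {ω : P.Sp} {i l : Fin P.L} (hl : l < i) {k : Fin (P.G + 1)} {x y : Fin P.N}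
    (h : P.fl ω l k x y = 1) : (ω (P.cF (P.fc ω l k x y))).1.val = 0 := by
  unfold fl at h
  rw [P.th_low (show l.val < i.val from hl) i.2] at h
  by_contra hne
  rw [if_neg (by omega)] at h
  exact zero_ne_one h

theorem RepP_av_V : av (fun b : P.V => ind (b.1.val = 0)) = 1 / (P.Q : ℝ) := by
  rw [av_prod]
  have : ∀ a : Fin P.Q, av (fun _ : P.Ty => ind (a.val = 0)) = ind (a.val = 0) :=
    fun _ => av_const _
  rw [av_congr this]
  exact av_ind_eq P.Q_pos

/-- Proof: first fix the types (`av_mix` for the set of the flip coordinates `P.cF _`), then union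
bound over `θ`: for every `j` a time cell `ξ j : Fin P.N` of level `0` with
`(ξ j).val / (P.T i / P.T 0) = β` (at most `P.T i / P.T 0` of them; everything of level `< i`
depends on `x` only through `x / T 0`), and for every leaf `(j, l)` a pair (level, scale). The
`K * d` flip coordinates are different, because the component `i` of `cv` is the type `(j, l)`. The
flips of level below `i` have probability `1 / Q` (`th_low`). Template: `H76/LW/RepP.lean`. -/
theorem av_rep {ψ : Fin (P.z ^ P.D) → Fin P.N} (i : Fin P.L) (β : ℕ) (v : P.Sp)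
    (r : Fin P.K → P.Rr)
    (htp : ∀ j l, P.tp v i (P.x0 i β) (ψ (P.lf (r j) l)) = (j, l)) :
    av (fun w : P.Sp => ind (∀ j, P.Rep (mix (P.Dl i β) v w) ψ i β (r j))) ≤
      P.prp i.val ^ P.K := by
  classical
  set Fl : Set P.Co := Set.range P.cF with hFl
  have hDi : 0 < P.T i.val / P.T 0 := P.TT_pos (Nat.zero_le _)
  rw [av_mix Fl]
  -- fix the types
  suffices hw1 : ∀ w1 : P.Sp, av (fun w2 : P.Sp =>
      ind (∀ j, P.Rep (mix (P.Dl i β) v (mix Fl w1 w2)) ψ i β (r j))) ≤ P.prp i.val ^ P.K by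
    calc _ ≤ av (fun _ : P.Sp => P.prp i.val ^ P.K) := av_mono hw1
      _ = _ := av_const _
  intro w1
  set ω₀ : P.Sp := mix (P.Dl i β) v w1 with hω₀
  have hmt : ∀ (w2 : P.Sp) (t : P.TC),
      (mix (P.Dl i β) v (mix Fl w1 w2)) (P.cT t) = ω₀ (P.cT t) := by
    intro w2 t
    have h1 : P.cT t ∉ Fl := by
      rintro ⟨f, hf⟩
      exact P.cF_ne_cT f t hf
    by_cases h2 : P.cT t ∈ P.Dl i β
    · rw [mix_mem h2, mix_not_mem h1, hω₀, mix_mem h2]
    · rw [mix_not_mem h2, hω₀, mix_not_mem h2]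
  -- the choices and the coordinates
  obtain ⟨co, hco⟩ : ∃ co : (Fin P.K → Fin P.N) × (Fin P.K → Fin P.d → Fin P.L × Fin (P.G + 1)) →
      P.Ty → P.Co, ∀ θ a, co θ a = P.cF (P.fc ω₀ (θ.2 a.1 a.2).1 (θ.2 a.1 a.2).2
        (P.RepP_pt (θ.1 a.1)) (ψ (P.lf (r a.1) a.2))) :=
    ⟨fun θ a => _, fun _ _ => rfl⟩
  obtain ⟨ev, hev⟩ : ∃ ev : (Fin P.K → Fin P.N) ×
      (Fin P.K → Fin P.d → Fin P.L × Fin (P.G + 1)) → P.Sp → Prop, ∀ θ w2, ev θ w2 ↔
        (((∀ j, (θ.1 j).val / (P.T i.val / P.T 0) = β) ∧ (∀ j l, (θ.2 j l).1 < i) ∧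
          ∀ j, (P.RepP_pt (θ.1 j)).val / P.T i.val = β) ∧
          ∀ a, (w2 (co θ a)).1.val = 0) :=
    ⟨fun θ w2 => _, fun _ _ => Iff.rfl⟩
  have h1 : ∀ w2 : P.Sp, ind (∀ j, P.Rep (mix (P.Dl i β) v (mix Fl w1 w2)) ψ i β (r j)) ≤
      ∑ θ, ind (ev θ w2) := by
    intro w2
    apply ind_le_sum
    intro hall
    have hall' : ∀ j : Fin P.K, ∃ x : Fin P.N, x.val / P.T i.val = β ∧ ∀ l : Fin P.d,
        ∃ s : Fin P.L × Fin (P.G + 1), s.1 < i ∧
          P.fl (mix (P.Dl i β) v (mix Fl w1 w2)) s.1 s.2 x (ψ (P.lf (r j) l)) = 1 := hall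
    choose x hx s hs1 hs2 using hall'
    refine ⟨(fun j => dv (P.T 0) (x j), s), (hev _ _).mpr ⟨⟨?_, hs1, ?_⟩, ?_⟩⟩
    · intro j
      show (x j).val / P.T 0 / (P.T i.val / P.T 0) = β
      obtain ⟨w, hw⟩ := P.T_dvd (Nat.zero_le i.val)
      rw [Nat.div_div_eq_div_mul, hw, Nat.mul_div_cancel_left _ (P.T_pos _), ← hw, hx]
    · intro j
      have h2 := congrArg Fin.val (P.RepP_dv_pt i.val (x j))
      exact h2.trans (hx j)
    · rintro ⟨j, l⟩
      have h3 := P.RepP_fl (hs1 j l) (hs2 j l)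
      rw [hco]
      simp only
      rw [P.RepP_fc_pt, ← P.RepP_fc_congr (hmt w2)]
      rw [mix_mem (P.RepP_mem_Dl (hs1 j l) _ (hx j) _ _),
        mix_mem (show _ ∈ Fl from ⟨_, rfl⟩)] at h3
      exact h3
  have h2 : ∀ θ, av (fun w2 => ind (ev θ w2)) ≤
      (∏ j, ind ((θ.1 j).val / (P.T i.val / P.T 0) = β)) * (1 / (P.Q : ℝ)) ^ (P.K * P.d) := by
    intro θ
    by_cases hθ : (∀ j, (θ.1 j).val / (P.T i.val / P.T 0) = β) ∧ (∀ j l, (θ.2 j l).1 < i) ∧
        ∀ j, (P.RepP_pt (θ.1 j)).val / P.T i.val = β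
    · obtain ⟨hx, hg, hp⟩ := hθ
      have hinj : Function.Injective (co θ) := by
        rintro ⟨j, l⟩ ⟨j', l'⟩ h
        rw [hco, hco, P.cF_inj] at h
        have h5 : P.cv ω₀ (θ.2 j l).1 (P.RepP_pt (θ.1 j)) (ψ (P.lf (r j) l)) i =
            P.cv ω₀ (θ.2 j' l').1 (P.RepP_pt (θ.1 j')) (ψ (P.lf (r j') l')) i := by
          have := congrArg (fun f : P.FC => f.2.2 i) h
          exact this
        unfold cv at h5
        rw [if_pos (hg j l), if_pos (hg j' l'), hω₀, P.RepP_tp_mix (hp j), P.RepP_tp_mix (hp j'),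
          htp, htp] at h5
        exact h5
      have e5 : ∀ w2, ind (ev θ w2) ≤ ∏ a, (fun (_ : P.Ty) (b : P.V) => ind (b.1.val = 0)) a
          (w2 (co θ a)) := by
        intro w2
        have e6 : ∏ a, (fun (_ : P.Ty) (b : P.V) => ind (b.1.val = 0)) a (w2 (co θ a)) =
            ind (∀ a, (w2 (co θ a)).1.val = 0) := by
          rw [ind_forall]
        rw [e6]
        apply ind_mono
        intro h
        exact ((hev _ _).mp h).2
      have e7 : ∏ j, ind ((θ.1 j).val / (P.T i.val / P.T 0) = β) = 1 :=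
        Finset.prod_eq_one (fun j _ => ind_pos (hx j))
      rw [e7, one_mul]
      calc av (fun w2 => ind (ev θ w2)) ≤ av (fun w2 : P.Sp =>
            ∏ a, (fun (_ : P.Ty) (b : P.V) => ind (b.1.val = 0)) a (w2 (co θ a))) :=
            av_mono e5
        _ = ∏ a, av ((fun (_ : P.Ty) (b : P.V) => ind (b.1.val = 0)) a) :=
            av_coords (co θ) hinj (fun (_ : P.Ty) (b : P.V) => ind (b.1.val = 0))
        _ = (1 / (P.Q : ℝ)) ^ (P.K * P.d) := by
            have : ∀ a : P.Ty, av ((fun (_ : P.Ty) (b : P.V) => ind (b.1.val = 0)) a) =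
                1 / (P.Q : ℝ) := fun _ => P.RepP_av_V
            rw [Finset.prod_congr rfl (fun a _ => this a), Finset.prod_const, Finset.card_univ,
              Fintype.card_prod, Fintype.card_fin, Fintype.card_fin]
    · have : ∀ w2, ind (ev θ w2) = 0 := by
        intro w2
        apply ind_neg
        intro h
        exact hθ ((hev _ _).mp h).1
      simp only [this]
      rw [av_const]
      apply mul_nonneg (Finset.prod_nonneg (fun _ _ => ind_nonneg _))
      positivity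
  refine (av_mono h1).trans ?_
  rw [av_sum]
  refine (Finset.sum_le_sum (fun θ _ => h2 θ)).trans ?_
  rw [Fintype.sum_prod_type]
  have h3 : ∀ x : Fin P.K → Fin P.N, ∑ _y : Fin P.K → Fin P.d → Fin P.L × Fin (P.G + 1),
      (∏ j, ind ((x j).val / (P.T i.val / P.T 0) = β)) * (1 / (P.Q : ℝ)) ^ (P.K * P.d) =
      (∏ j, ind ((x j).val / (P.T i.val / P.T 0) = β)) *
        ((((P.L * (P.G + 1) : ℕ) : ℝ) * (1 / (P.Q : ℝ))) ^ P.d) ^ P.K := by
    intro x
    rw [Finset.sum_const, Finset.card_univ, nsmul_eq_mul]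
    have hc : ((Fintype.card (Fin P.K → Fin P.d → Fin P.L × Fin (P.G + 1)) : ℕ) : ℝ) =
        (((P.L * (P.G + 1) : ℕ) : ℝ) ^ P.d) ^ P.K := by
      simp only [Fintype.card_prod, Fintype.card_fun, Fintype.card_fin]
      push_cast
      rfl
    rw [hc, mul_pow ((P.L * (P.G + 1) : ℕ) : ℝ), mul_pow (((P.L * (P.G + 1) : ℕ) : ℝ) ^ P.d),
      ← pow_mul (1 / (P.Q : ℝ)), mul_comm P.d P.K]
    ring
  rw [Finset.sum_congr rfl (fun x _ => h3 x), ← Finset.sum_mul]
  unfold prp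
  rw [mul_pow ((P.T i.val / P.T 0 : ℕ) : ℝ)]
  apply mul_le_mul_of_nonneg_right _ (by positivity)
  have h4 : ∑ x : Fin P.K → Fin P.N, ∏ j, ind ((x j).val / (P.T i.val / P.T 0) = β) =
      ∏ _j : Fin P.K, ∑ x : Fin P.N, ind (x.val / (P.T i.val / P.T 0) = β) := by
    rw [Finset.prod_univ_sum]
    simp
  rw [h4, Finset.prod_const, Finset.card_univ, Fintype.card_fin]
  apply pow_le_pow_left₀
  · exact Finset.sum_nonneg (fun _ _ => ind_nonneg _)
  · exact RepP_sum_div _ _ _ hDi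

end Par

end Pool.Agent.H76.TY
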