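import Pool.Agent.H76.TY.Fresh
import Pool.Agent.H76.TY.Det
import Pool.Agent.H76.TY.RepP
import Pool.Agent.H76.TY.MatP
import Pool.Agent.H76.LZ.Seq

/-! The probability that all rows of a block can be placed in a time cell in a given colour. -/

namespace Pool.Agent.H76.TY

open Finset Pool.Agent.H46.SR Pool.Agent.H46.TS
open Pool.Agent.H76.LZ (seq)

theorem block_mix {ι B : Type*} {D D' : Set ι} (h : D' ⊆ D) (ω w1 w2 : ι → B) :
    mix D ω (mix D' w1 w2) = mix D' (mix D ω w1) w2 := by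
  funext c
  by_cases h' : c ∈ D'
  · rw [mix_mem (h h'), mix_mem h', mix_mem h']
  · rw [mix_not_mem h']
    by_cases h'' : c ∈ D
    · rw [mix_mem h'', mix_mem h'', mix_not_mem h']
    · rw [mix_not_mem h'', mix_not_mem h'']

theorem block_comm {X Y : Type*} [Fintype X] [Fintype Y] (f : X → Y → ℝ) :
    av (fun a => av (fun b => f a b)) = av (fun b => av (fun a => f a b)) := by
  have h1 : av (fun a => av (fun b => f a b)) = av (fun p : X × Y => f p.1 p.2) :=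
    (av_prod (fun p : X × Y => f p.1 p.2)).symm
  have h2 : av (fun b => av (fun a => f a b)) = av (fun p : Y × X => f p.2 p.1) :=
    (av_prod (fun p : Y × X => f p.2 p.1)).symm
  rw [h1, h2]
  exact (av_equiv (Equiv.prodComm X Y) (fun p : Y × X => f p.2 p.1))

namespace Par

variable (P : Par)

theorem block_D3 {i : Fin P.L} (k : Fin (P.G + 1)) {β : ℕ} (hβ : β < P.N / P.T i.val) :
    P.D3 i k β ⊆ P.Db i β := by
  rintro c ⟨h1, h2, -⟩
  have hT : 0 < P.T i.val := P.T_pos i.val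
  have h3 : β * P.T i.val < P.N :=
    lt_of_lt_of_le (Nat.mul_lt_mul_of_pos_right hβ hT) (Nat.div_mul_le_self _ _)
  refine ⟨h1.le, ?_⟩
  rw [h1, h2, Nat.div_self hT, Nat.div_one]
  show (β * P.T i.val % P.N) / P.T i.val = β
  rw [Nat.mod_eq_of_lt h3]
  exact Nat.mul_div_cancel _ hT

theorem block_Dl {i : Fin P.L} {β : ℕ} : P.Dl i β ⊆ P.Db i β := fun _ h => ⟨h.1.le, h.2⟩

/-- resampling the lower levels does not change types of level at least `i` -/
theorem block_tp {i : Fin P.L} {β : ℕ} (v w : P.Sp) {l : Fin P.L} (hl : i ≤ l) (x y : Fin P.N) :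
    P.tp (mix (P.Dl i β) v w) l x y = P.tp v l x y := by
  unfold tp
  rw [mix_not_mem]
  rintro ⟨h, -⟩
  rw [lvc_cT] at h
  exact absurd h (not_lt.mpr hl)

theorem block_fl {i : Fin P.L} {β : ℕ} (v w : P.Sp) {l : Fin P.L} (hl : i ≤ l)
    (k : Fin (P.G + 1)) (x y : Fin P.N) :
    P.fl (mix (P.Dl i β) v w) l k x y = P.fl v l k x y := by
  have h1 : P.fc (mix (P.Dl i β) v w) l k x y = P.fc v l k x y := by
    have h2 : P.cv (mix (P.Dl i β) v w) l x y = P.cv v l x y := by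
      funext i'
      unfold cv
      by_cases h : l < i'
      · rw [if_pos h, if_pos h, P.block_tp v w (hl.trans h.le)]
      · rw [if_neg h, if_neg h]
    unfold fc
    rw [h2]
  unfold fl
  rw [h1, mix_not_mem]
  rintro ⟨h, -⟩
  rw [lvc_cF] at h
  exact absurd h (not_lt.mpr hl)

theorem block_stk {ψ : Fin (P.z ^ P.D) → Fin P.N} {i : Fin P.L} {β : ℕ} {γ : ZMod 2}
    {j : Fin P.K} (v w : P.Sp) (r : P.Rr) :
    P.Stk (mix (P.Dl i β) v w) ψ i β γ j r ↔ P.Stk v ψ i β γ j r := by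
  have h1 : ∀ y : Fin P.N, P.hi (mix (P.Dl i β) v w) i (P.x0 i β) y =
      P.hi v i (P.x0 i β) y := by
    intro y
    unfold hi
    apply Finset.sum_congr rfl
    intro s hs
    rw [mem_filter] at hs
    exact P.block_fl v w hs.2 s.2 _ _
  unfold Stk
  simp only [h1, P.block_tp v w (le_refl i)]

theorem pst_nonneg (i : ℕ) : 0 ≤ P.pst i := by unfold pst; positivity

theorem pst_le (i : ℕ) : P.pst i ≤ 1 := by
  have h1 : (1 : ℝ) ≤ ((P.z ^ P.kap i : ℕ) : ℝ) := by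
    have := P.zk_ge i
    exact_mod_cast (by omega : 1 ≤ P.z ^ P.kap i)
  have h2 : (1 : ℝ) ≤ ((P.K * P.d : ℕ) : ℝ) := by
    have := Nat.mul_pos P.hK P.hd
    exact_mod_cast this
  have h3 : 1 / ((P.z ^ P.kap i : ℕ) : ℝ) ≤ 1 := by
    rw [div_le_one (by linarith)]
    exact h1
  have h4 : 1 / ((P.K * P.d : ℕ) : ℝ) ≤ 1 := by
    rw [div_le_one (by linarith)]
    exact h2
  have h5 : (1 / ((P.K * P.d : ℕ) : ℝ)) ^ P.d ≤ 1 := pow_le_one₀ (by positivity) h4
  unfold pst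
  exact mul_le_one₀ h3 (by positivity) h5

theorem prp_nonneg (i : ℕ) : 0 ≤ P.prp i := by unfold prp; positivity

/-- the first subblock estimate: no stuck row of the type group `j` -/
theorem block_one {ψ : Fin (P.z ^ P.D) → Fin P.N} (hψ : StrictMono ψ) (F : P.Prof ψ)
    {i : Fin P.L} {β : ℕ} (hβ : β < P.N / P.T i.val) (γ : ZMod 2) (j : Fin P.K) {c : ℝ}
    (hc0 : 0 ≤ c) (hc1 : c ≤ 1) (hc : c ≤ P.cst) (ω : P.Sp) :
    av (fun p : (Fin (P.xb i.val) → P.Rr) × P.Sp =>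
      ind (∀ a, ¬ P.Stk (mix (P.Db i β) ω p.2) ψ i β γ j (p.1 a))) ≤
      (1 - c * P.pst i.val) ^ P.xb i.val := by
  have h1 : ∀ v : P.Sp, av (fun p : (Fin (P.xb i.val) → P.Rr) × P.Sp =>
      ind (∀ a, ¬ P.Stk (mix (P.D3 i F.k β) v p.2) ψ i β γ j (p.1 a))) ≤
      (1 - c * P.pst i.val) ^ P.xb i.val := by
    intro v
    obtain ⟨κ, hκ⟩ := P.fresh_av F v i β
    refine le_trans (av_mono (fun p => ind_mono (fun h a => ?_)))
      (seq (fun r : P.Rr => P.Gd F v i β κ r) (fun r => P.Cz F r)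
        (fun r w => P.Stk (mix (P.D3 i F.k β) v w) ψ i β γ j r) (P.pst_nonneg i.val)
        (P.pst_le i.val) hc0 hc1
        (fun r _ w w' h => P.stk_dep F i β γ j v r w w' h)
        (fun r hr => P.av_stk hψ F i β γ j v κ hr)
        (fun l hl => hc.trans (hκ l (hl.trans (P.xb_le i.val)))))
    exact fun h2 => h a h2.2
  rw [av_prod]
  have h2 : ∀ rows : Fin (P.xb i.val) → P.Rr, av (fun w : P.Sp =>
      ind (∀ a, ¬ P.Stk (mix (P.Db i β) ω w) ψ i β γ j (rows a))) =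
      av (fun w1 : P.Sp => av (fun w2 : P.Sp =>
        ind (∀ a, ¬ P.Stk (mix (P.D3 i F.k β) (mix (P.Db i β) ω w1) w2) ψ i β γ j
          (rows a)))) := by
    intro rows
    rw [av_mix (P.D3 i F.k β)]
    apply av_congr
    intro w1
    apply av_congr
    intro w2
    rw [block_mix (P.block_D3 F.k hβ)]
  rw [av_congr h2, block_comm]
  have h3 : ∀ w1 : P.Sp, av (fun rows : Fin (P.xb i.val) → P.Rr => av (fun w2 : P.Sp =>
        ind (∀ a, ¬ P.Stk (mix (P.D3 i F.k β) (mix (P.Db i β) ω w1) w2) ψ i β γ j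
          (rows a)))) ≤ (1 - c * P.pst i.val) ^ P.xb i.val := by
    intro w1
    have h4 := h1 (mix (P.Db i β) ω w1)
    rw [av_prod] at h4
    exact h4
  exact (av_mono h3).trans (av_const _).le

/-- the second estimate: all stuck rows are repaired -/
theorem block_two {ψ : Fin (P.z ^ P.D) → Fin P.N} {i : Fin P.L} {β : ℕ} (γ : ZMod 2) (ω : P.Sp)
    {x : ℕ} (rows : Fin P.K × Fin x → P.Rr) :
    av (fun w : P.Sp => ind ((∀ j, ∃ a, P.Stk (mix (P.Db i β) ω w) ψ i β γ j (rows (j, a))) ∧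
      ∀ j a, P.Stk (mix (P.Db i β) ω w) ψ i β γ j (rows (j, a)) →
        P.Rep (mix (P.Db i β) ω w) ψ i β (rows (j, a)))) ≤ P.prp i.val ^ P.K := by
  rw [av_mix (P.Dl i β)]
  have h1 : ∀ w1 : P.Sp, av (fun w2 : P.Sp =>
      ind ((∀ j, ∃ a, P.Stk (mix (P.Db i β) ω (mix (P.Dl i β) w1 w2)) ψ i β γ j (rows (j, a))) ∧
      ∀ j a, P.Stk (mix (P.Db i β) ω (mix (P.Dl i β) w1 w2)) ψ i β γ j (rows (j, a)) →
        P.Rep (mix (P.Db i β) ω (mix (P.Dl i β) w1 w2)) ψ i β (rows (j, a)))) ≤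
      P.prp i.val ^ P.K := by
    intro w1
    simp only [block_mix (P.block_Dl (i := i) (β := β)), P.block_stk]
    by_cases h : ∀ j, ∃ a, P.Stk (mix (P.Db i β) ω w1) ψ i β γ j (rows (j, a))
    · choose f hf using h
      refine le_trans (av_mono (fun w2 => ind_mono (fun h2 j => h2.2 j (f j) (hf j)))) ?_
      exact P.av_rep i β (mix (P.Db i β) ω w1) (fun j => rows (j, f j))
        (fun j l => (hf j l).2)
    · have h3 : ∀ w2 : P.Sp, ind ((∀ j, ∃ a, P.Stk (mix (P.Db i β) ω w1) ψ i β γ j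
          (rows (j, a))) ∧ ∀ j a, P.Stk (mix (P.Db i β) ω w1) ψ i β γ j (rows (j, a)) →
          P.Rep (mix (P.Dl i β) (mix (P.Db i β) ω w1) w2) ψ i β (rows (j, a))) = 0 :=
        fun w2 => ind_neg (fun h4 => h h4.1)
      rw [av_congr h3, av_const]
      exact pow_nonneg (P.prp_nonneg _) _
  exact (av_mono h1).trans (av_const _).le

/-- the bound for one block and one cell -/
noncomputable def pz (c : ℝ) (i : ℕ) : ℝ :=
  (P.K : ℝ) * (1 - c * P.pst i) ^ P.xb i + P.prp i ^ P.K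

theorem block {ψ : Fin (P.z ^ P.D) → Fin P.N} (hψ : StrictMono ψ) (F : P.Prof ψ)
    {i : Fin P.L} {β : ℕ} (hβ : β < P.N / P.T i.val) (γ : ZMod 2) {c : ℝ}
    (hc0 : 0 ≤ c) (hc1 : c ≤ 1) (hc : c ≤ P.cst) (ω : P.Sp) :
    av (fun p : (Fin P.K × Fin (P.xb i.val) → P.Rr) × P.Sp =>
      ind (∀ a, P.Plc (mix (P.Db i β) ω p.2) ψ i β γ (p.1 a))) ≤ P.pz c i.val := by
  classical
  have hsplit : ∀ p : (Fin P.K × Fin (P.xb i.val) → P.Rr) × P.Sp,
      ind (∀ a, P.Plc (mix (P.Db i β) ω p.2) ψ i β γ (p.1 a)) ≤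
      (∑ j : Fin P.K, ind (∀ a, ¬ P.Stk (mix (P.Db i β) ω p.2) ψ i β γ j (p.1 (j, a)))) +
      ind ((∀ j, ∃ a, P.Stk (mix (P.Db i β) ω p.2) ψ i β γ j (p.1 (j, a))) ∧
      ∀ j a, P.Stk (mix (P.Db i β) ω p.2) ψ i β γ j (p.1 (j, a)) →
        P.Rep (mix (P.Db i β) ω p.2) ψ i β (p.1 (j, a))) := by
    intro p
    by_cases h : ∀ a, P.Plc (mix (P.Db i β) ω p.2) ψ i β γ (p.1 a)
    · rw [ind_pos h]
      by_cases h1 : ∀ j, ∃ a, P.Stk (mix (P.Db i β) ω p.2) ψ i β γ j (p.1 (j, a))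
      · rw [ind_pos ⟨h1, fun j a hs => P.det hs (h (j, a))⟩]
        have : 0 ≤ ∑ j : Fin P.K,
            ind (∀ a, ¬ P.Stk (mix (P.Db i β) ω p.2) ψ i β γ j (p.1 (j, a))) :=
          Finset.sum_nonneg (fun _ _ => ind_nonneg _)
        linarith
      · push Not at h1
        obtain ⟨j, hj⟩ := h1
        have h2 : (1 : ℝ) ≤ ∑ j : Fin P.K,
            ind (∀ a, ¬ P.Stk (mix (P.Db i β) ω p.2) ψ i β γ j (p.1 (j, a))) := by
          calc (1 : ℝ) = ind (∀ a, ¬ P.Stk (mix (P.Db i β) ω p.2) ψ i β γ j (p.1 (j, a))) :=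
                (ind_pos hj).symm
            _ ≤ _ := Finset.single_le_sum (f := fun j : Fin P.K =>
                ind (∀ a, ¬ P.Stk (mix (P.Db i β) ω p.2) ψ i β γ j (p.1 (j, a))))
                (fun _ _ => ind_nonneg _) (mem_univ j)
        have h3 := ind_nonneg ((∀ j, ∃ a, P.Stk (mix (P.Db i β) ω p.2) ψ i β γ j (p.1 (j, a))) ∧
          ∀ j a, P.Stk (mix (P.Db i β) ω p.2) ψ i β γ j (p.1 (j, a)) →
          P.Rep (mix (P.Db i β) ω p.2) ψ i β (p.1 (j, a)))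
        linarith
    · rw [ind_neg h]
      exact add_nonneg (Finset.sum_nonneg (fun _ _ => ind_nonneg _)) (ind_nonneg _)
  refine (av_mono hsplit).trans ?_
  rw [av_add]
  unfold pz
  apply add_le_add
  · rw [av_sum univ (fun (j : Fin P.K) (p : (Fin P.K × Fin (P.xb i.val) → P.Rr) × P.Sp) =>
      ind (∀ a, ¬ P.Stk (mix (P.Db i β) ω p.2) ψ i β γ j (p.1 (j, a))))]
    have h1 : ∀ j ∈ (univ : Finset (Fin P.K)),
        av (fun p : (Fin P.K × Fin (P.xb i.val) → P.Rr) × P.Sp =>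
        ind (∀ a, ¬ P.Stk (mix (P.Db i β) ω p.2) ψ i β γ j (p.1 (j, a)))) ≤
        (1 - c * P.pst i.val) ^ P.xb i.val := by
      intro j _
      refine le_trans (le_of_eq ?_) (P.block_one hψ F hβ γ j hc0 hc1 hc ω)
      rw [av_prod, av_prod]
      have hinj : Function.Injective (fun a : Fin (P.xb i.val) => (j, a)) := by
        intro a a' h
        simpa using h
      exact av_comp_inj (fun a : Fin (P.xb i.val) => (j, a)) hinj
        (fun rows : Fin (P.xb i.val) → P.Rr => av (fun w : P.Sp =>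
          ind (∀ a, ¬ P.Stk (mix (P.Db i β) ω w) ψ i β γ j (rows a))))
    refine (Finset.sum_le_sum h1).trans (le_of_eq ?_)
    rw [Finset.sum_const, Finset.card_univ, Fintype.card_fin, nsmul_eq_mul]
  · rw [av_prod]
    exact (av_mono (fun rows => P.block_two γ ω rows)).trans (av_const _).le

end Par

end Pool.Agent.H76.TY
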