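import Pool.Agent.H76.LX.Count

/-! Counting rows, with a block length that depends on the level. -/

namespace Pool.Agent.H76.TY

open Finset Pool.Agent.H76.LX

theorem countL {n v L w K X : ℕ} (T x nb : ℕ → ℕ) (hx : ∀ i, 1 ≤ x i)
    (hn : ∀ i, i < L → n = nb i * x i) (hX : ∀ i, i + 1 < L → x i ≤ X)
    (hT0 : 0 < T 0) (hw : 0 < w) (hT : ∀ i, T (i + 1) = T i * w) (hL : 1 ≤ L)
    (φ : Fin n → ℕ) (hφ : StrictMono φ) (hK : ∀ a, φ a < K * T (L - 1))
    (H : ∀ i < L, ¬ ∃ (f : Fin v → ℕ) (g : Fin v → ℕ), StrictMono f ∧ StrictMono g ∧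
      (∀ l, f l < nb i) ∧ ∀ l, ∀ a : Fin n, a.val / x i = f l → φ a / T i = g l) :
    n ≤ 2 * x (L - 1) * K + (L - 1) * (v * w * (2 * X)) + v * T 0 := by
  have hTp : ∀ i, 0 < T i := by
    intro i
    induction i with
    | zero => exact hT0
    | succ i ih => rw [hT]; exact Nat.mul_pos ih hw
  -- heavy cells
  have hH : ∀ i < L, ((countW φ (x i) (T i)).image (fun a => φ a / T i)).card ≤ v := by
    intro i hi
    apply count_heavy (hx i) (hn i hi) φ hφ (H i hi)
    intro g hg
    obtain ⟨a, ha, rfl⟩ := mem_image.1 hg
    exact (mem_filter.1 ha).2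
  -- level 0
  have hW0 : (countW φ (x 0) (T 0)).card ≤ v * T 0 := by
    have h1 : (countW φ (x 0) (T 0)).card ≤
        T 0 * ((countW φ (x 0) (T 0)).image (fun a => φ a / T 0)).card := by
      apply Finset.card_le_mul_card_image
      intro g _
      have h2 : (filter (fun a => φ a / T 0 = g) (countW φ (x 0) (T 0))).card ≤
          (Finset.Ico (g * T 0) (g * T 0 + T 0)).card := by
        apply Finset.card_le_card_of_injOn φ
        · intro a ha
          have h3 := (mem_filter.1 ha).2
          have h4 := Nat.div_mul_le_self (φ a) (T 0)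
          have h5 : φ a < φ a / T 0 * T 0 + T 0 := Nat.lt_div_mul_add hT0
          rw [h3] at h4 h5
          simp only [coe_Ico, Set.mem_Ico]
          exact ⟨h4, h5⟩
        · exact hφ.injective.injOn
      simpa using h2
    have h2 := hH 0 (by omega)
    calc _ ≤ _ := h1
      _ ≤ T 0 * v := Nat.mul_le_mul_left _ h2
      _ = v * T 0 := mul_comm _ _
  -- step
  have hstep : ∀ i, i + 1 < L → (countW φ (x (i + 1)) (T (i + 1))).card ≤
      (countW φ (x i) (T i)).card + v * w * (2 * X) := by
    intro i hi
    have h1 : (countW φ (x (i + 1)) (T (i + 1))).card ≤ (countW φ (x i) (T i)).card +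
        ((countW φ (x (i + 1)) (T (i + 1))).filter
          (fun a => ¬ 2 * x i ≤ (countR φ (T i) (φ a / T i)).card)).card := by
      rw [← card_filter_add_card_filter_not (s := countW φ (x (i + 1)) (T (i + 1)))
        (fun a => 2 * x i ≤ (countR φ (T i) (φ a / T i)).card)]
      apply Nat.add_le_add_right
      apply card_le_card
      intro a ha
      exact mem_filter.2 ⟨mem_univ _, (mem_filter.1 ha).2⟩
    refine h1.trans (Nat.add_le_add_left ?_ _)
    set B := (countW φ (x (i + 1)) (T (i + 1))).filter
      (fun a => ¬ 2 * x i ≤ (countR φ (T i) (φ a / T i)).card) with hB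
    have h2 : B.card ≤ (2 * X) * (B.image (fun a => φ a / T i)).card := by
      apply Finset.card_le_mul_card_image
      intro g hg
      obtain ⟨a, ha, rfl⟩ := mem_image.1 hg
      have h3 := (mem_filter.1 ha).2
      push Not at h3
      refine le_trans (card_le_card ?_) (h3.le.trans (Nat.mul_le_mul_left _ (hX i hi)))
      intro b hb
      exact countR_mem.2 (mem_filter.1 hb).2
    have h3 : (B.image (fun a => φ a / T i)).card ≤
        w * ((B.image (fun a => φ a / T i)).image (fun h => h / w)).card := by
      apply Finset.card_le_mul_card_image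
      intro g _
      have h4 : (filter (fun h => h / w = g) (B.image (fun a => φ a / T i))).card ≤
          (Finset.Ico (g * w) (g * w + w)).card := by
        apply card_le_card
        intro h hh
        have h5 := (mem_filter.1 hh).2
        have h6 := Nat.div_mul_le_self h w
        have h7 : h < h / w * w + w := Nat.lt_div_mul_add hw
        rw [h5] at h6 h7
        exact mem_Ico.2 ⟨h6, h7⟩
      simpa using h4
    have h4 : ((B.image (fun a => φ a / T i)).image (fun h => h / w)).card ≤ v := by
      refine le_trans (card_le_card ?_) (hH (i + 1) hi)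
      intro g hg
      obtain ⟨h, hh, rfl⟩ := mem_image.1 hg
      obtain ⟨a, ha, rfl⟩ := mem_image.1 hh
      refine mem_image.2 ⟨a, (mem_filter.1 ha).1, ?_⟩
      rw [hT, Nat.div_div_eq_div_mul]
    calc B.card ≤ (2 * X) * (B.image (fun a => φ a / T i)).card := h2
      _ ≤ (2 * X) * (w * v) := Nat.mul_le_mul_left _ (h3.trans (Nat.mul_le_mul_left _ h4))
      _ = v * w * (2 * X) := by ring
  have hW : ∀ i, i < L → (countW φ (x i) (T i)).card ≤ i * (v * w * (2 * X)) + v * T 0 := by
    intro i
    induction i with
    | zero => intro _; simpa using hW0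
    | succ i ih =>
      intro hi
      have h1 := hstep i hi
      have h2 := ih (by omega)
      have h3 : (i + 1) * (v * w * (2 * X)) = i * (v * w * (2 * X)) + v * w * (2 * X) := by ring
      omega
  -- light points of the last level
  have hlast := hW (L - 1) (by omega)
  have h1 : n = (countW φ (x (L - 1)) (T (L - 1))).card +
      (univ.filter (fun a : Fin n =>
        ¬ 2 * x (L - 1) ≤ (countR φ (T (L - 1)) (φ a / T (L - 1))).card)).card := by
    have := card_filter_add_card_filter_not (s := (univ : Finset (Fin n)))
        (fun a => 2 * x (L - 1) ≤ (countR φ (T (L - 1)) (φ a / T (L - 1))).card)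
    rw [card_univ, Fintype.card_fin] at this
    exact this.symm
  have h2 : (univ.filter (fun a : Fin n =>
      ¬ 2 * x (L - 1) ≤ (countR φ (T (L - 1)) (φ a / T (L - 1))).card)).card ≤
      2 * x (L - 1) * K := by
    set B := univ.filter (fun a : Fin n =>
      ¬ 2 * x (L - 1) ≤ (countR φ (T (L - 1)) (φ a / T (L - 1))).card) with hB
    have h2 : B.card ≤ (2 * x (L - 1)) * (B.image (fun a => φ a / T (L - 1))).card := by
      apply Finset.card_le_mul_card_image
      intro g hg
      obtain ⟨a, ha, rfl⟩ := mem_image.1 hg
      have h3 := (mem_filter.1 ha).2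
      push Not at h3
      refine le_trans (card_le_card ?_) h3.le
      intro b hb
      exact countR_mem.2 (mem_filter.1 hb).2
    have h3 : (B.image (fun a => φ a / T (L - 1))).card ≤ K := by
      have h4 : B.image (fun a => φ a / T (L - 1)) ⊆ Finset.range K := by
        intro g hg
        obtain ⟨a, _, rfl⟩ := mem_image.1 hg
        rw [mem_range]
        exact Nat.div_lt_of_lt_mul (by rw [mul_comm]; exact hK a)
      simpa using card_le_card h4
    exact h2.trans (Nat.mul_le_mul_left _ h3)
  omega

end Pool.Agent.H76.TY
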