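import Pool.Agent.H76.LX.Defs

/-! Definitions: the multi-scale colouring with types, and the random rows.

A column has, in every time cell of every level, a random type.  A flip of level `l` acts on a
cell of columns and on a vector of types of the levels above `l`.  The flips of the top level have
probability `1 / z`, the other flips have probability `1 / z ^ τ`. -/

namespace Pool.Agent.H76.TY

open Finset Pool.Agent.H46.SR Pool.Agent.H46.TS
open Pool.Agent.H76.LX (pl_lt)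

/-- the sample space of one row: a base column and `d` columns -/
abbrev Rw (z d D : ℕ) : Type := Fin (z ^ D) × (Fin d → Fin (z ^ D))

/-- the columns of the ones of a row: independent uniform columns of the block of length `z` of
the base column -/
def lfN {z d D : ℕ} (r : Rw z d D) (l : Fin d) : ℕ := pl z r.1.val (r.2 l).val

theorem lfN_lt {z d D : ℕ} (hz : 0 < z) (hD : 1 ≤ D) (r : Rw z d D) (l : Fin d) :
    lfN r l < z ^ D := by
  unfold lfN
  exact pl_lt hz (dvd_pow_self z (by omega)) r.1.2 _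

/-- all parameters -/
structure Par where
  z : ℕ
  d : ℕ
  K : ℕ
  L : ℕ
  t0 : ℕ
  ρ : ℕ
  τ : ℕ
  D : ℕ
  G : ℕ
  hz : 2 ≤ z
  hd : 1 ≤ d
  hK : 1 ≤ K
  hKz : K ≤ z
  hL : 1 ≤ L
  hτ : 1 ≤ τ
  hG : 1 ≤ G
  ht : t0 + ρ * (L - 1) ≤ G
  hD : τ + 8 ≤ D

namespace Par

variable (P : Par)

/-- length of a time cell -/
def T (i : ℕ) : ℕ := P.z ^ (P.t0 + P.ρ * i)
/-- length of a column cell -/
def U (k : ℕ) : ℕ := P.z ^ k
/-- side of the coloured matrix -/
def N : ℕ := P.z ^ P.G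
/-- number of values of a coordinate -/
def Q : ℕ := P.z ^ P.τ
/-- exponent of the flip probability of level `i` -/
def kap (i : ℕ) : ℕ := if i + 1 = P.L then 1 else P.τ
/-- threshold of the flips of level `i` -/
def th (i : ℕ) : ℕ := P.z ^ (P.τ - P.kap i)
/-- number of rows in a subblock for level `i` -/
def xb (i : ℕ) : ℕ := P.z ^ (P.kap i + 1)

theorem zpos : 0 < P.z := by have := P.hz; omega
theorem D_pos : 1 ≤ P.D := by have := P.hD; omega
theorem T_pos (i : ℕ) : 0 < P.T i := pow_pos P.zpos _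
theorem U_pos (k : ℕ) : 0 < P.U k := pow_pos P.zpos _
theorem N_pos : 0 < P.N := pow_pos P.zpos _
theorem Q_pos : 0 < P.Q := pow_pos P.zpos _
theorem xb_pos (i : ℕ) : 0 < P.xb i := pow_pos P.zpos _
theorem kap_ge (i : ℕ) : 1 ≤ P.kap i := by
  unfold kap
  have := P.hτ
  split_ifs <;> omega
theorem kap_le (i : ℕ) : P.kap i ≤ P.τ := by
  unfold kap
  have := P.hτ
  split_ifs <;> omega
theorem xb_le (i : ℕ) : P.xb i ≤ P.z ^ (P.τ + 1) := by
  unfold xb
  exact Nat.pow_le_pow_right P.zpos (by have := P.kap_le i; omega)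
theorem th_pos (i : ℕ) : 0 < P.th i := pow_pos P.zpos _
theorem th_mul (i : ℕ) : P.th i * P.z ^ P.kap i = P.Q := by
  unfold th Q
  rw [← pow_add]
  congr 1
  have := P.kap_le i
  omega
theorem zk_ge (i : ℕ) : 2 ≤ P.z ^ P.kap i := by
  calc 2 ≤ P.z := P.hz
    _ = P.z ^ 1 := (pow_one _).symm
    _ ≤ P.z ^ P.kap i := Nat.pow_le_pow_right P.zpos (P.kap_ge i)
theorem th_two (i : ℕ) : 2 * P.th i ≤ P.Q := by
  rw [← P.th_mul i, mul_comm 2]
  exact Nat.mul_le_mul_left _ (P.zk_ge i)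
theorem th_low {i j : ℕ} (hj : j < i) (hi : i < P.L) : P.th j = 1 := by
  unfold th kap
  rw [if_neg (by omega), Nat.sub_self, pow_zero]
theorem T_dvd {i j : ℕ} (h : i ≤ j) : P.T i ∣ P.T j := by
  unfold T
  exact pow_dvd_pow _ (by have := Nat.mul_le_mul_left P.ρ h; omega)
theorem T_dvd_N {i : ℕ} (h : i < P.L) : P.T i ∣ P.N := by
  unfold T N
  apply pow_dvd_pow
  have h1 := P.ht
  have h2 : P.ρ * i ≤ P.ρ * (P.L - 1) := Nat.mul_le_mul_left _ (by omega)
  omega
theorem TT_pos {i j : ℕ} (h : i ≤ j) : 0 < P.T j / P.T i :=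
  Nat.div_pos (Nat.le_of_dvd (P.T_pos j) (P.T_dvd h)) (P.T_pos i)

instance : NeZero P.N := ⟨P.N_pos.ne'⟩
instance : NeZero P.Q := ⟨P.Q_pos.ne'⟩
instance : Nonempty (Fin P.Q) := ⟨⟨0, P.Q_pos⟩⟩
instance : NeZero P.K := ⟨by have := P.hK; omega⟩
instance : NeZero P.d := ⟨by have := P.hd; omega⟩

/-- integer division on `Fin n` -/
def dv {n : ℕ} (l : ℕ) (x : Fin n) : Fin n := ⟨x.val / l, lt_of_le_of_lt (Nat.div_le_self _ _) x.2⟩

/-- the types -/
abbrev Ty : Type := Fin P.K × Fin P.d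

/-- the coordinates of the flips: level and scale, time cell and column cell, vector of types -/
abbrev FC : Type := (Fin P.L × Fin (P.G + 1)) × (Fin P.N × Fin P.N) × (Fin P.L → P.Ty)
/-- the coordinates of the types: level, time cell, column -/
abbrev TC : Type := Fin P.L × Fin P.N × Fin P.N
/-- all coordinates -/
def Co : Type := P.FC ⊕ P.TC

noncomputable instance : Fintype P.Co := inferInstanceAs (Fintype (P.FC ⊕ P.TC))
noncomputable instance : DecidableEq P.Co := Classical.decEq _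

/-- a flip coordinate -/
def cF (f : P.FC) : P.Co := Sum.inl f
/-- a type coordinate -/
def cT (t : P.TC) : P.Co := Sum.inr t

theorem cF_inj {f f' : P.FC} : P.cF f = P.cF f' ↔ f = f' := Sum.inl.injEq f f' ▸ Iff.rfl
theorem cT_inj {t t' : P.TC} : P.cT t = P.cT t' ↔ t = t' := Sum.inr.injEq t t' ▸ Iff.rfl
theorem cF_ne_cT (f : P.FC) (t : P.TC) : P.cF f ≠ P.cT t := Sum.inl_ne_inr
theorem cT_ne_cF (f : P.FC) (t : P.TC) : P.cT t ≠ P.cF f := Sum.inr_ne_inl
/-- the value of a coordinate: only the first part is used for flips, only the second for types -/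
abbrev V : Type := Fin P.Q × P.Ty
/-- the random colouring -/
abbrev Sp : Type := P.Co → P.V
/-- the random row -/
abbrev Rr : Type := Rw P.z P.d P.D

instance : Nonempty P.Ty := ⟨(0, 0)⟩
instance : Nonempty P.V := ⟨(0, (0, 0))⟩
instance : Nonempty P.Rr := by
  have h : 0 < P.z ^ P.D := pow_pos P.zpos _
  exact ⟨(⟨0, h⟩, fun _ => ⟨0, h⟩)⟩

/-- the type of the column `y` in its time cell of level `i` -/
def tp (ω : P.Sp) (i : Fin P.L) (x y : Fin P.N) : P.Ty := (ω (P.cT (i, dv (P.T i.val) x, y))).2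

/-- the types of the column `y` for the levels above `l` -/
def cv (ω : P.Sp) (l : Fin P.L) (x y : Fin P.N) : Fin P.L → P.Ty :=
  fun i => if l < i then P.tp ω i x y else (0, 0)

/-- the coordinate of the flip of level `l` and scale `k` at the point `(x, y)` -/
def fc (ω : P.Sp) (l : Fin P.L) (k : Fin (P.G + 1)) (x y : Fin P.N) : P.FC :=
  ((l, k), (dv (P.T l.val) x, dv (P.U k.val) y), P.cv ω l x y)

/-- the flip of level `l` and scale `k` at the point `(x, y)` -/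
def fl (ω : P.Sp) (l : Fin P.L) (k : Fin (P.G + 1)) (x y : Fin P.N) : ZMod 2 :=
  if (ω (P.cF (P.fc ω l k x y))).1.val < P.th l.val then 1 else 0

/-- the colour -/
def col (ω : P.Sp) (x y : Fin P.N) : ZMod 2 := ∑ s : Fin P.L × Fin (P.G + 1), P.fl ω s.1 s.2 x y

/-- the columns of a row -/
def lf (r : P.Rr) (l : Fin P.d) : Fin (P.z ^ P.D) := ⟨lfN r l, lfN_lt P.zpos P.D_pos r l⟩

/-- row `r` can be placed in the time cell `β` of level `i`, in the colour `γ` -/
def Plc (ω : P.Sp) (ψ : Fin (P.z ^ P.D) → Fin P.N) (i : Fin P.L) (β : ℕ) (γ : ZMod 2)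
    (r : P.Rr) : Prop :=
  ∃ x : Fin P.N, x.val / P.T i.val = β ∧ ∀ l, P.col ω x (ψ (P.lf r l)) = γ

/-- the level of a coordinate -/
def lvc (c : P.Co) : Fin P.L := Sum.elim (fun f : P.FC => f.1.1) (fun t : P.TC => t.1) c

/-- the time cell of a coordinate -/
def tmc (c : P.Co) : Fin P.N := Sum.elim (fun f : P.FC => f.2.1.1) (fun t : P.TC => t.2.1) c

/-- the column cell of scale `k` of a coordinate -/
def clc (k : ℕ) (c : P.Co) : ℕ :=
  Sum.elim (fun f : P.FC => f.2.1.2.val) (fun t : P.TC => t.2.2.val / P.U k) c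

@[simp] theorem lvc_cF (f : P.FC) : P.lvc (P.cF f) = f.1.1 := rfl
@[simp] theorem lvc_cT (t : P.TC) : P.lvc (P.cT t) = t.1 := rfl
@[simp] theorem tmc_cF (f : P.FC) : P.tmc (P.cF f) = f.2.1.1 := rfl
@[simp] theorem tmc_cT (t : P.TC) : P.tmc (P.cT t) = t.2.1 := rfl
@[simp] theorem clc_cF (k : ℕ) (f : P.FC) : P.clc k (P.cF f) = f.2.1.2.val := rfl
@[simp] theorem clc_cT (k : ℕ) (t : P.TC) : P.clc k (P.cT t) = t.2.2.val / P.U k := rfl

/-- the coordinates of level at most `i` inside the time cell `β` of level `i` -/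
def Db (i : Fin P.L) (β : ℕ) : Set P.Co :=
  {c | P.lvc c ≤ i ∧ (P.tmc c).val / (P.T i.val / P.T (P.lvc c).val) = β}

/-- the coordinates of level below `i` inside the time cell `β` of level `i` -/
def Dl (i : Fin P.L) (β : ℕ) : Set P.Co :=
  {c | P.lvc c < i ∧ (P.tmc c).val / (P.T i.val / P.T (P.lvc c).val) = β}

/-- the data of a profile: a scale `k`, good columns `TT` -/
structure Prof (ψ : Fin (P.z ^ P.D) → Fin P.N) where
  k : Fin (P.G + 1)
  TT : Finset (Fin (P.z ^ P.D))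
  hTT : P.z ^ P.D ≤ TT.card * (2 * (P.D + 1) ^ (P.G + 1))
  hb : ∀ b ∈ TT, ∀ b' : Fin (P.z ^ P.D), b'.val / P.z = b.val / P.z →
    (ψ b').val / P.U k.val = (ψ b).val / P.U k.val
  hJ : ∀ b ∈ TT, (univ.filter (fun b' : Fin (P.z ^ P.D) =>
    (ψ b').val / P.U k.val = (ψ b).val / P.U k.val)).card ≤ P.z ^ 6

/-- first point of a time cell -/
def x0 (i : Fin P.L) (β : ℕ) : Fin P.N := ⟨β * P.T i.val % P.N, Nat.mod_lt _ P.N_pos⟩

/-- the sum of the flips of level at least `i`, without level `i` and scale `k` -/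
def bas (ω : P.Sp) (i : Fin P.L) (k : Fin (P.G + 1)) (x y : Fin P.N) : ZMod 2 :=
  ∑ s ∈ univ.filter (fun s : Fin P.L × Fin (P.G + 1) => i ≤ s.1 ∧ s ≠ (i, k)),
    P.fl ω s.1 s.2 x y

/-- the sum of the flips of level at least `i` -/
def hi (ω : P.Sp) (i : Fin P.L) (x y : Fin P.N) : ZMod 2 :=
  ∑ s ∈ univ.filter (fun s : Fin P.L × Fin (P.G + 1) => i ≤ s.1), P.fl ω s.1 s.2 x y

/-- the class of a column -/
def cls (ω : P.Sp) (i : Fin P.L) (k : Fin (P.G + 1)) (β : ℕ) (y : Fin P.N) :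
    ZMod 2 × (Fin P.L → P.Ty) :=
  (P.bas ω i k (P.x0 i β) y, P.cv ω i (P.x0 i β) y)

/-- a row of good position: all leaves are different good columns of the class `κ` -/
def Gd {ψ : Fin (P.z ^ P.D) → Fin P.N} (F : P.Prof ψ) (ω : P.Sp) (i : Fin P.L) (β : ℕ)
    (κ : ZMod 2 × (Fin P.L → P.Ty)) (r : P.Rr) : Prop :=
  (∀ l, P.lf r l ∈ F.TT ∧ P.cls ω i F.k β (ψ (P.lf r l)) = κ) ∧
    ∀ l l', l ≠ l' → P.lf r l ≠ P.lf r l'

/-- a stuck row: all leaves have the wrong colour, and leaf `l` has the type `(j, l)` -/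
def Stk (ω : P.Sp) (ψ : Fin (P.z ^ P.D) → Fin P.N) (i : Fin P.L) (β : ℕ) (γ : ZMod 2)
    (j : Fin P.K) (r : P.Rr) : Prop :=
  ∀ l, P.hi ω i (P.x0 i β) (ψ (P.lf r l)) = γ + 1 ∧ P.tp ω i (P.x0 i β) (ψ (P.lf r l)) = (j, l)

/-- the row can be repaired -/
def Rep (ω : P.Sp) (ψ : Fin (P.z ^ P.D) → Fin P.N) (i : Fin P.L) (β : ℕ) (r : P.Rr) : Prop :=
  ∃ x : Fin P.N, x.val / P.T i.val = β ∧ ∀ l, ∃ s : Fin P.L × Fin (P.G + 1), s.1 < i ∧
    P.fl ω s.1 s.2 x (ψ (P.lf r l)) = 1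

/-- the resampled coordinates of level `i`: the flips of scale `k` and the types in the cell `β` -/
def D3 (i : Fin P.L) (k : Fin (P.G + 1)) (β : ℕ) : Set P.Co :=
  {c | P.lvc c = i ∧ P.tmc c = dv (P.T i.val) (P.x0 i β) ∧ ∀ f, c = P.cF f → f.1.2 = k}

open scoped Classical in
/-- the coordinates of a row -/
noncomputable def Cz {ψ : Fin (P.z ^ P.D) → Fin P.N} (F : P.Prof ψ) (r : P.Rr) : Finset P.Co :=
  univ.filter (fun c => ∃ l, P.clc F.k.val c = (ψ (P.lf r l)).val / P.U F.k.val)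

/-- number of classes -/
def ncl : ℕ := 2 * (P.K * P.d) ^ P.L

/-- the constant of the tuple lemma -/
noncomputable def cst : ℝ :=
  (1 / (2 * ((P.D : ℝ) + 1) ^ (P.G + 1) * P.ncl)) ^ P.d - 2 * (P.d : ℝ) ^ 2 / P.z

/-- the probability of a stuck row -/
noncomputable def pst (i : ℕ) : ℝ :=
  1 / ((P.z ^ P.kap i : ℕ) : ℝ) * (1 / ((P.K * P.d : ℕ) : ℝ)) ^ P.d

/-- bound for the probability of a repair -/
noncomputable def prp (i : ℕ) : ℝ :=
  ((P.T i / P.T 0 : ℕ) : ℝ) * (((P.L * (P.G + 1) : ℕ) : ℝ) * (1 / (P.Q : ℝ))) ^ P.d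

end Par

end Pool.Agent.H76.TY
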