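import Pool.Agent.H76.TY.Tup

/-! A random row is good and has no cell in common with given rows, with positive probability. -/

namespace Pool.Agent.H76.TY

open Finset Pool.Agent.H46.SR Pool.Agent.H46.TS

namespace Par

variable (P : Par)

theorem fresh_card : Fintype.card (ZMod 2 × (Fin P.L → P.Ty)) = P.ncl := by
  rw [Fintype.card_prod, ZMod.card, Fintype.card_fun, Fintype.card_prod, Fintype.card_fin,
    Fintype.card_fin, Fintype.card_fin]
  rfl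

theorem ncl_pos : 0 < P.ncl := by
  unfold ncl
  have h1 := P.hK
  have h2 := P.hd
  have h3 : 0 < P.K * P.d := Nat.mul_pos h1 h2
  positivity

theorem fresh_cls {ψ : Fin (P.z ^ P.D) → Fin P.N} (F : P.Prof ψ) (v : P.Sp) (i : Fin P.L)
    (β : ℕ) : ∃ κ, (F.TT.card : ℝ) / P.ncl ≤
      (((F.TT.filter (fun b => P.cls v i F.k β (ψ b) = κ)).card : ℕ) : ℝ) := by
  have h0 : (0 : ℝ) < P.ncl := by exact_mod_cast P.ncl_pos
  obtain ⟨κ, -, hκ⟩ := Finset.exists_le_card_fiber_of_nsmul_le_card_of_maps_to (s := F.TT)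
    (t := (univ : Finset (ZMod 2 × (Fin P.L → P.Ty))))
    (f := fun b => P.cls v i F.k β (ψ b)) (b := (F.TT.card : ℝ) / P.ncl)
    (fun _ _ => mem_univ _) ⟨(0, fun _ => (0, 0)), mem_univ _⟩ (by
      rw [card_univ, P.fresh_card, nsmul_eq_mul]
      apply le_of_eq
      field_simp)
  exact ⟨κ, hκ⟩

theorem fresh_av {ψ : Fin (P.z ^ P.D) → Fin P.N} (F : P.Prof ψ) (v : P.Sp) (i : Fin P.L)
    (β : ℕ) : ∃ κ, ∀ l : List P.Rr, l.length ≤ P.z ^ (P.τ + 1) →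
      P.cst ≤ av (fun r : P.Rr => ind (P.Gd F v i β κ r ∧
        ∀ r' ∈ l, Disjoint (P.Cz F r) (P.Cz F r'))) := by
  classical
  obtain ⟨κ, hκ⟩ := P.fresh_cls F v i β
  refine ⟨κ, ?_⟩
  intro l hl
  have hz0 : (0 : ℝ) < (P.z : ℝ) ^ P.D := by
    have : (0 : ℝ) < (P.z : ℝ) := by exact_mod_cast P.zpos
    positivity
  have hn0 : (0 : ℝ) < P.ncl := by exact_mod_cast P.ncl_pos
  obtain ⟨S, hSd⟩ : ∃ S : Finset ℕ, S = (l.toFinset ×ˢ (univ : Finset (Fin P.d))).image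
      (fun p => (ψ (P.lf p.1 p.2)).val / P.U F.k.val) := ⟨_, rfl⟩
  have hS : S.card ≤ P.d * P.z ^ (P.τ + 1) := by
    rw [hSd]
    refine card_image_le.trans ?_
    rw [card_product, card_univ, Fintype.card_fin, mul_comm]
    exact Nat.mul_le_mul_left _ ((List.toFinset_card_le l).trans hl)
  obtain ⟨T, hT⟩ : ∃ T : Finset (Fin (P.z ^ P.D)),
      T = F.TT.filter (fun b => P.cls v i F.k β (ψ b) = κ) := ⟨_, rfl⟩
  rw [← hT] at hκ
  have key := tup (z := P.z) (d := P.d) (D := P.D) (τ := P.τ) P.hz P.D_pos T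
    (fun b => (ψ b).val / P.U F.k.val) S (by
      intro b hb
      rw [hT, mem_filter] at hb
      calc _ ≤ P.z ^ 6 * P.z ^ (P.τ + 2) := Nat.mul_le_mul_right _ (F.hJ b hb.1)
        _ = P.z ^ (6 + (P.τ + 2)) := (pow_add _ _ _).symm
        _ ≤ P.z ^ P.D := Nat.pow_le_pow_right P.zpos (by have := P.hD; omega)) hS
  have hcst : P.cst ≤ ((T.card : ℝ) / (P.z : ℝ) ^ P.D) ^ P.d - 2 * (P.d : ℝ) ^ 2 / P.z := by
    unfold cst
    have h1 : (P.z : ℝ) ^ P.D ≤ (F.TT.card : ℝ) * (2 * ((P.D : ℝ) + 1) ^ (P.G + 1)) := by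
      exact_mod_cast F.hTT
    have h2 : 1 / (2 * ((P.D : ℝ) + 1) ^ (P.G + 1) * P.ncl) ≤
        (T.card : ℝ) / (P.z : ℝ) ^ P.D := by
      rw [div_le_div_iff₀ (by positivity) hz0, one_mul]
      rw [div_le_iff₀ hn0] at hκ
      have h3 : 0 ≤ 2 * ((P.D : ℝ) + 1) ^ (P.G + 1) := by positivity
      calc (P.z : ℝ) ^ P.D ≤ (F.TT.card : ℝ) * (2 * ((P.D : ℝ) + 1) ^ (P.G + 1)) := h1
        _ ≤ ((T.card : ℝ) * P.ncl) * (2 * ((P.D : ℝ) + 1) ^ (P.G + 1)) :=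
            mul_le_mul_of_nonneg_right hκ h3
        _ = (T.card : ℝ) * (2 * ((P.D : ℝ) + 1) ^ (P.G + 1) * P.ncl) := by ring
    have h3 : 0 ≤ 1 / (2 * ((P.D : ℝ) + 1) ^ (P.G + 1) * P.ncl) := by positivity
    have h4 := pow_le_pow_left₀ h3 h2 P.d
    linarith
  refine hcst.trans (key.trans ?_)
  apply av_mono
  intro r
  apply ind_mono
  intro h
  obtain ⟨h1, h2, h3⟩ := h (P.lf r) (fun l => rfl)
  refine ⟨⟨?_, h2⟩, ?_⟩
  · intro l'
    have h4 := h1 l'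
    rw [hT, mem_filter] at h4
    exact h4
  · intro r' hr'
    rw [Finset.disjoint_left]
    intro c hc hc'
    unfold Cz at hc hc'
    rw [mem_filter] at hc hc'
    obtain ⟨-, l1, hl1⟩ := hc
    obtain ⟨-, l2, hl2⟩ := hc'
    apply h3 l1
    rw [hSd, mem_image]
    refine ⟨(r', l2), ?_, ?_⟩
    · rw [mem_product]
      exact ⟨List.mem_toFinset.mpr hr', mem_univ _⟩
    · exact hl2.symm.trans hl1

end Par

end Pool.Agent.H76.TY
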