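import Pool.Agent.H76.LX.ProfA
import Pool.Agent.H76.TY.Defs

/-! Existence of a profile. -/

namespace Pool.Agent.H76.TY

open Finset
open Pool.Agent.H76.LX (profileA)

namespace Par

variable (P : Par)

theorem exists_prof (hzb : 2 * (2 * P.D * (P.G + 1) + P.G) + 2 ≤ P.z)
    (ψ : Fin (P.z ^ P.D) → Fin P.N) (hψ : StrictMono ψ) : Nonempty (P.Prof ψ) := by
  classical
  obtain ⟨Pr, TT, hTT, h0, h1, hst, hb⟩ :=
    profileA (z := P.z) (δ := 1) (Λ := P.G) (D := P.D) (G := P.G) hzb (by omega) ψ hψ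
  have hex : ∃ k, 1 ≤ Pr k ∧ k ≤ P.G := ⟨P.G, by rw [h1]; exact P.D_pos, le_rfl⟩
  obtain ⟨k, hk, hmin⟩ : ∃ k, (1 ≤ Pr k ∧ k ≤ P.G) ∧ ∀ k' < k, ¬ (1 ≤ Pr k' ∧ k' ≤ P.G) :=
    ⟨Nat.find hex, Nat.find_spec hex, fun k' hk' => Nat.find_min hex hk'⟩
  have hk1 : 1 ≤ k := by
    by_contra hcon
    have : k = 0 := by omega
    rw [this, h0] at hk
    omega
  have hle : Pr k ≤ 4 := by
    have h2 := hst (k - 1) (by omega)
    have h3 := hmin (k - 1) (by omega)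
    have h4 : k - 1 + 1 = k := by omega
    rw [h4] at h2
    omega
  have hU : ∀ k, P.U k = P.z ^ (1 * k) := by
    intro k
    rw [one_mul]
    rfl
  refine ⟨{ k := ⟨k, by omega⟩, TT := TT, hTT := hTT, hb := ?_, hJ := ?_ }⟩
  · intro b hbT b' hbb
    show (ψ b').val / P.U k = (ψ b).val / P.U k
    rw [hU]
    apply (hb b hbT k hk.2).1
    obtain ⟨u, hu⟩ : ∃ u, Pr k = 1 + u := ⟨Pr k - 1, by omega⟩
    rw [hu, pow_add, pow_one, ← Nat.div_div_eq_div_mul, ← Nat.div_div_eq_div_mul, hbb]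
  · intro b hbT
    show (univ.filter (fun b' : Fin (P.z ^ P.D) =>
      (ψ b').val / P.U k = (ψ b).val / P.U k)).card ≤ P.z ^ 6
    rw [hU]
    exact ((hb b hbT k hk.2).2).trans (Nat.pow_le_pow_right P.zpos (by omega))

end Par

end Pool.Agent.H76.TY
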