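import Pool.Agent.H76.TY.Block
import Pool.Agent.H76.TY.Prof
import Pool.Agent.H76.TY.Count
import Pool.Agent.H76.LX.UnionA
import Pool.Agent.H76.LX.Marg

/-! The lower bound for given parameters. -/

namespace Pool.Agent.H76.TY

open Finset Pool.Agent.H46.SR Pool.Agent.H46.TS
open Pool.Agent.H76.LX (unionA margE)

/-- marginals: the rows with given indices and all flips -/
theorem av_margI {X Y C R Q : Type*} [Fintype X] [DecidableEq X] [Fintype Y] [DecidableEq Y]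
    [Fintype C] [DecidableEq C] [Fintype R] [Nonempty R] [Fintype Q] [Nonempty Q] (σ : Y → X)
    (hσ : Function.Injective σ) (F : (Y → R) → (C → Q) → ℝ) :
    av (fun ω : (X ⊕ C) → R × Q =>
      F (fun a => (ω (Sum.inl (σ a))).1) (fun c => (ω (Sum.inr c)).2)) =
      av (fun p : (Y → R) × (C → Q) => F p.1 p.2) := by
  have h1 : av (fun ω : (X ⊕ C) → R × Q =>
      F (fun a => (ω (Sum.inl (σ a))).1) (fun c => (ω (Sum.inr c)).2)) =
      av (fun p : ((X ⊕ C) → R) × ((X ⊕ C) → Q) =>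
        F (fun a => p.1 (Sum.inl (σ a))) (fun c => p.2 (Sum.inr c))) := by
    rw [← av_equiv (margE (X ⊕ C) R Q)]
    rfl
  have hinl : Function.Injective (fun a : Y => (Sum.inl (σ a) : X ⊕ C)) := by
    intro a a' h
    exact hσ (Sum.inl_injective h)
  have hinr : Function.Injective (fun c : C => (Sum.inr c : X ⊕ C)) := Sum.inr_injective
  rw [h1, av_prod, av_prod]
  have h2 : ∀ u : (X ⊕ C) → R,
      av (fun v : (X ⊕ C) → Q => F (fun a => u (Sum.inl (σ a))) (fun c => v (Sum.inr c)))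
        = av (fun v' : C → Q => F (fun a => u (Sum.inl (σ a))) v') := fun u =>
    av_comp_inj (fun c : C => (Sum.inr c : X ⊕ C)) hinr
      (fun v' : C → Q => F (fun a => u (Sum.inl (σ a))) v')
  simp only [h2]
  exact av_comp_inj (fun a : Y => (Sum.inl (σ a) : X ⊕ C)) hinl
    (fun u' : Y → R => av (fun v' : C → Q => F u' v'))

namespace Par

variable (P : Par)

/-- rows in a block of level `i` -/
def bl (i : ℕ) : ℕ := P.z * P.xb i

theorem bl_pos (i : ℕ) : 0 < P.bl i := Nat.mul_pos P.zpos (P.xb_pos i)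

/-- all random choices: rows, and flips and types -/
abbrev Om (n : ℕ) : Type := (Fin n ⊕ P.Co) → P.Rr × P.V

variable {n : ℕ}

/-- the rows of the matrix -/
def rowsO (ω : P.Om n) (a : Fin n) : P.Rr := (ω (Sum.inl a)).1

/-- the colouring -/
def flipO (ω : P.Om n) : P.Sp := fun c => (ω (Sum.inr c)).2

theorem idx_lt {i b : ℕ} (hb : b < n / P.bl i) (p : Fin P.K × Fin (P.xb i)) :
    b * P.bl i + (p.1.val * P.xb i + p.2.val) < n ∧
      p.1.val * P.xb i + p.2.val < P.bl i := by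
  have h1 : p.1.val * P.xb i + p.2.val < P.bl i := by
    have h2 := p.1.2
    have h3 := p.2.2
    have h4 := P.hKz
    calc p.1.val * P.xb i + p.2.val < p.1.val * P.xb i + P.xb i := by omega
      _ = (p.1.val + 1) * P.xb i := by ring
      _ ≤ P.z * P.xb i := Nat.mul_le_mul_right _ (by omega)
  refine ⟨?_, h1⟩
  have h2 : (b + 1) * P.bl i ≤ n / P.bl i * P.bl i := Nat.mul_le_mul_right _ hb
  have h3 := Nat.div_mul_le_self n (P.bl i)
  rw [add_mul, one_mul] at h2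
  omega

/-- the index of a row of a block -/
def idx {i : ℕ} (b : Fin (n / P.bl i)) (p : Fin P.K × Fin (P.xb i)) : Fin n :=
  ⟨b.val * P.bl i + (p.1.val * P.xb i + p.2.val), (P.idx_lt b.2 p).1⟩

theorem idx_div {i : ℕ} (b : Fin (n / P.bl i)) (p : Fin P.K × Fin (P.xb i)) :
    (P.idx b p).val / P.bl i = b.val := by
  show (b.val * P.bl i + (p.1.val * P.xb i + p.2.val)) / P.bl i = b.val
  rw [mul_comm, Nat.mul_add_div (P.bl_pos i), Nat.div_eq_of_lt (P.idx_lt b.2 p).2, add_zero]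

theorem idx_inj {i : ℕ} (b : Fin (n / P.bl i)) : Function.Injective (P.idx b) := by
  intro p p' h
  have h1 : b.val * P.bl i + (p.1.val * P.xb i + p.2.val) =
      b.val * P.bl i + (p'.1.val * P.xb i + p'.2.val) := congrArg Fin.val h
  have h2 : p.1.val * P.xb i + p.2.val = p'.1.val * P.xb i + p'.2.val := by omega
  have hx := P.xb_pos i
  have h3 : p.1.val = p'.1.val := by
    have h4 : (p.1.val * P.xb i + p.2.val) / P.xb i = p.1.val := by
      rw [mul_comm, Nat.mul_add_div hx, Nat.div_eq_of_lt p.2.2, add_zero]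
    have h5 : (p'.1.val * P.xb i + p'.2.val) / P.xb i = p'.1.val := by
      rw [mul_comm, Nat.mul_add_div hx, Nat.div_eq_of_lt p'.2.2, add_zero]
    rw [← h4, ← h5, h2]
  rw [h3] at h2
  exact Prod.ext (Fin.ext h3) (Fin.ext (by omega))

/-- all rows of the block `b` can be placed in the time cell `β` of level `i` in the colour `γ` -/
def Ev (ψ : Fin (P.z ^ P.D) → Fin P.N) (i : Fin P.L) (γ : ZMod 2) (b : Fin (n / P.bl i.val))
    (β : Fin (P.N / P.T i.val)) (ω : P.Om n) : Prop :=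
  ∀ p, P.Plc (P.flipO ω) ψ i β.val γ (P.rowsO ω (P.idx b p))

/-- the coordinates resampled for the block `b` and the cell `β` -/
def DD (i : Fin P.L) (b : Fin (n / P.bl i.val)) (β : Fin (P.N / P.T i.val)) :
    Set (Fin n ⊕ P.Co) :=
  {s | (∃ a : Fin n, s = Sum.inl a ∧ a.val / P.bl i.val = b.val) ∨
    ∃ c ∈ P.Db i β.val, s = Sum.inr c}

theorem out_mem {i : Fin P.L} {β β' : ℕ} {x : Fin P.N} (hx : x.val / P.T i.val = β)
    (hne : β ≠ β') {c : P.Co} (hc : P.tmc c = dv (P.T (P.lvc c).val) x) : c ∉ P.Db i β' := by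
  rintro ⟨h1, h2⟩
  rw [hc] at h2
  have h3 : x.val / P.T (P.lvc c).val / (P.T i.val / P.T (P.lvc c).val) = β' := h2
  have h4 : (P.lvc c).val ≤ i.val := h1
  rw [Nat.div_div_eq_div_mul, Nat.mul_div_cancel' (P.T_dvd h4)] at h3
  exact hne (hx.symm.trans h3)

theorem tp_out {i : Fin P.L} {β β' : ℕ} {x : Fin P.N} (hx : x.val / P.T i.val = β)
    (hne : β ≠ β') {ω ω' : P.Sp} (h : ∀ c, c ∉ P.Db i β' → ω c = ω' c) (l : Fin P.L)
    (y : Fin P.N) : P.tp ω l x y = P.tp ω' l x y := by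
  unfold tp
  rw [h _ (P.out_mem hx hne rfl)]

theorem fl_out {i : Fin P.L} {β β' : ℕ} {x : Fin P.N} (hx : x.val / P.T i.val = β)
    (hne : β ≠ β') {ω ω' : P.Sp} (h : ∀ c, c ∉ P.Db i β' → ω c = ω' c) (l : Fin P.L)
    (k : Fin (P.G + 1)) (y : Fin P.N) : P.fl ω l k x y = P.fl ω' l k x y := by
  have h1 : P.fc ω l k x y = P.fc ω' l k x y := by
    have h2 : P.cv ω l x y = P.cv ω' l x y := by
      funext i'
      unfold cv
      rw [P.tp_out hx hne h]
    unfold fc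
    rw [h2]
  unfold fl
  rw [h1, h _ (P.out_mem hx hne rfl)]

theorem plc_out {i : Fin P.L} {β β' : ℕ} (hne : β ≠ β') {ω ω' : P.Sp}
    (h : ∀ c, c ∉ P.Db i β' → ω c = ω' c) (ψ : Fin (P.z ^ P.D) → Fin P.N) (γ : ZMod 2)
    (r : P.Rr) : P.Plc ω ψ i β γ r ↔ P.Plc ω' ψ i β γ r := by
  unfold Plc
  apply exists_congr
  intro x
  apply and_congr_right
  intro hx
  apply forall_congr'
  intro c
  unfold col
  rw [Finset.sum_congr rfl (fun s _ => P.fl_out hx hne h s.1 s.2 _)]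

theorem ev_out (ψ : Fin (P.z ^ P.D) → Fin P.N) (i : Fin P.L) (γ : ZMod 2)
    (b b' : Fin (n / P.bl i.val)) (β β' : Fin (P.N / P.T i.val)) (hb : b ≠ b') (hβ : β ≠ β')
    (ω ω' : P.Om n) :
    P.Ev ψ i γ b β (mix (P.DD i b' β') ω ω') ↔ P.Ev ψ i γ b β ω := by
  unfold Ev
  apply forall_congr'
  intro p
  have h1 : P.rowsO (mix (P.DD i b' β') ω ω') (P.idx b p) = P.rowsO ω (P.idx b p) := by
    unfold rowsO
    rw [mix_not_mem]
    rintro (⟨a', h, h'⟩ | ⟨c, _, h⟩)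
    · simp only [Sum.inl.injEq] at h
      rw [← h, P.idx_div] at h'
      exact hb (Fin.ext h')
    · exact absurd h (by simp)
  rw [h1]
  apply P.plc_out (β' := β'.val) (fun h => hβ (Fin.ext h))
  intro c hc
  unfold flipO
  rw [mix_not_mem]
  rintro (⟨a', h, _⟩ | ⟨c', hc', h⟩)
  · exact absurd h (by simp)
  · simp only [Sum.inr.injEq] at h
    exact hc (h ▸ hc')

theorem ev_av {ψ : Fin (P.z ^ P.D) → Fin P.N} {i : Fin P.L} {γ : ZMod 2}
    {b : Fin (n / P.bl i.val)} {β : Fin (P.N / P.T i.val)} {p : ℝ}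
    (hp : ∀ ω : P.Sp, av (fun p : (Fin P.K × Fin (P.xb i.val) → P.Rr) × P.Sp =>
      ind (∀ a, P.Plc (mix (P.Db i β.val) ω p.2) ψ i β.val γ (p.1 a))) ≤ p) (ω : P.Om n) :
    av (fun ω' => ind (P.Ev ψ i γ b β (mix (P.DD i b β) ω ω'))) ≤ p := by
  classical
  refine le_trans (le_of_eq ?_) (hp (P.flipO ω))
  rw [← av_margI (X := Fin n) (Y := Fin P.K × Fin (P.xb i.val)) (C := P.Co) (R := P.Rr)
    (Q := P.V) (P.idx b) (P.idx_inj b)
    (fun r w => ind (∀ a, P.Plc (mix (P.Db i β.val) (P.flipO ω) w) ψ i β.val γ (r a)))]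
  apply av_congr
  intro ω'
  congr 1
  apply propext
  unfold Ev
  apply forall_congr'
  intro a
  have h1 : P.rowsO (mix (P.DD i b β) ω ω') (P.idx b a) = (ω' (Sum.inl (P.idx b a))).1 := by
    unfold rowsO
    have hm1 : (Sum.inl (P.idx b a) : Fin n ⊕ P.Co) ∈ P.DD i b β :=
      Or.inl ⟨_, rfl, P.idx_div b a⟩
    rw [mix_mem hm1]
  have h2 : P.flipO (mix (P.DD i b β) ω ω') =
      mix (P.Db i β.val) (P.flipO ω) (fun c => (ω' (Sum.inr c)).2) := by
    funext c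
    by_cases hc : c ∈ P.Db i β.val
    · rw [mix_mem hc]
      unfold flipO
      have hm1 : (Sum.inr c : Fin n ⊕ P.Co) ∈ P.DD i b β := Or.inr ⟨c, hc, rfl⟩
      rw [mix_mem hm1]
    · rw [mix_not_mem hc]
      unfold flipO
      rw [mix_not_mem]
      rintro (⟨a', h, _⟩ | ⟨c', hc', h⟩)
      · exact absurd h (by simp)
      · simp only [Sum.inr.injEq] at h
        exact hc (h ▸ hc')
  rw [h1, h2]

theorem pz_nonneg {c : ℝ} (hc0 : 0 ≤ c) (hc1 : c ≤ 1) (i : ℕ) : 0 ≤ P.pz c i := by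
  have h1 := P.pst_nonneg i
  have h2 := P.pst_le i
  have h3 := P.prp_nonneg i
  have h4 : 0 ≤ 1 - c * P.pst i := by nlinarith
  unfold pz
  positivity

open scoped Classical in
theorem exists_om {v : ℕ} (hzb : 2 * (2 * P.D * (P.G + 1) + P.G) + 2 ≤ P.z) {c : ℝ}
    (hc0 : 0 ≤ c) (hc1 : c ≤ 1) (hc : c ≤ P.cst)
    (hsum : ∑ q : Fin P.L × ZMod 2, (P.N : ℝ) ^ (P.z ^ P.D) *
      ((((n / P.bl q.1.val : ℕ) : ℝ) ^ v / (v.factorial : ℝ)) *
        (((P.N / P.T q.1.val : ℕ) : ℝ) ^ v / (v.factorial : ℝ)) * P.pz c q.1.val ^ v) < 1) :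
    ∃ ω : P.Om n, ∀ (i : Fin P.L) (γ : ZMod 2), ∀ ψ : Fin (P.z ^ P.D) → Fin P.N, StrictMono ψ →
      ¬ ∃ (f : Fin v → Fin (n / P.bl i.val)) (g : Fin v → Fin (P.N / P.T i.val)),
        StrictMono f ∧ StrictMono g ∧ ∀ l, P.Ev ψ i γ (f l) (g l) ω := by
  by_contra hcon
  push Not at hcon
  obtain ⟨bad, hbad⟩ : ∃ bad : Fin P.L × ZMod 2 → (Fin (P.z ^ P.D) → Fin P.N) → P.Om n → Prop,
      ∀ q ψ ω, bad q ψ ω ↔ (StrictMono ψ ∧ ∃ (f : Fin v → Fin (n / P.bl q.1.val))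
        (g : Fin v → Fin (P.N / P.T q.1.val)), StrictMono f ∧ StrictMono g ∧
        ∀ l, P.Ev ψ q.1 q.2 (f l) (g l) ω) := ⟨fun q ψ ω => _, fun _ _ _ => Iff.rfl⟩
  have h1 : ∀ ω : P.Om n, (1 : ℝ) ≤ ∑ q : Fin P.L × ZMod 2,
      ∑ ψ : Fin (P.z ^ P.D) → Fin P.N, ind (bad q ψ ω) := by
    intro ω
    obtain ⟨i, γ, ψ, hψ, f, g, hf, hg, hfg⟩ := hcon ω
    have h2 : ind (bad (i, γ) ψ ω) = 1 :=
      ind_pos ((hbad (i, γ) ψ ω).mpr ⟨hψ, f, g, hf, hg, hfg⟩)
    calc (1 : ℝ) = ind (bad (i, γ) ψ ω) := h2.symm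
      _ ≤ ∑ ψ : Fin (P.z ^ P.D) → Fin P.N, ind (bad (i, γ) ψ ω) :=
          Finset.single_le_sum (f := fun ψ => ind (bad (i, γ) ψ ω)) (fun _ _ => ind_nonneg _)
            (mem_univ ψ)
      _ ≤ _ := Finset.single_le_sum
          (f := fun q => ∑ ψ : Fin (P.z ^ P.D) → Fin P.N, ind (bad q ψ ω))
          (fun _ _ => Finset.sum_nonneg (fun _ _ => ind_nonneg _)) (mem_univ (i, γ))
  have h2 := av_mono h1
  rw [av_const, av_sum] at h2
  have h3 : ∀ q ∈ (univ : Finset (Fin P.L × ZMod 2)), av (fun ω : P.Om n =>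
      ∑ ψ : Fin (P.z ^ P.D) → Fin P.N, ind (bad q ψ ω)) ≤ (P.N : ℝ) ^ (P.z ^ P.D) *
      ((((n / P.bl q.1.val : ℕ) : ℝ) ^ v / (v.factorial : ℝ)) *
        (((P.N / P.T q.1.val : ℕ) : ℝ) ^ v / (v.factorial : ℝ)) * P.pz c q.1.val ^ v) := by
    intro q _
    rw [av_sum]
    have h4 : ∀ ψ ∈ (univ : Finset (Fin (P.z ^ P.D) → Fin P.N)),
        av (fun ω : P.Om n => ind (bad q ψ ω)) ≤
        (((n / P.bl q.1.val : ℕ) : ℝ) ^ v / (v.factorial : ℝ)) *
        (((P.N / P.T q.1.val : ℕ) : ℝ) ^ v / (v.factorial : ℝ)) * P.pz c q.1.val ^ v := by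
      intro ψ _
      have hpp := P.pz_nonneg hc0 hc1 q.1.val
      by_cases hψ : StrictMono ψ
      · obtain ⟨F⟩ := P.exists_prof hzb ψ hψ
        refine le_trans (av_mono (fun ω => ind_mono ?_)) (unionA (v := v) (P.Ev ψ q.1 q.2)
          (P.DD q.1) hpp ?_ ?_)
        · intro h
          exact ((hbad q ψ ω).mp h).2
        · intro b b' β β' hb hβ ω ω'
          exact P.ev_out ψ q.1 q.2 b b' β β' hb hβ ω ω'
        · intro b β ω
          apply P.ev_av
          intro ω0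
          exact P.block hψ F β.2 q.2 hc0 hc1 hc ω0
      · have : ∀ ω : P.Om n, ind (bad q ψ ω) = 0 := by
          intro ω
          apply ind_neg
          intro h
          exact hψ ((hbad q ψ ω).mp h).1
        simp only [this]
        rw [av_const]
        positivity
    refine (Finset.sum_le_sum h4).trans (le_of_eq ?_)
    rw [Finset.sum_const, Finset.card_univ, nsmul_eq_mul]
    simp only [Fintype.card_fun, Fintype.card_fin]
    push_cast
    ring
  have h4 := h2.trans (Finset.sum_le_sum h3)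
  linarith

/-- the matrix -/
def MM (ω : P.Om n) (n' : ℕ) (a b : Fin n') : Prop :=
  ∃ (h : a.val < n) (c : Fin P.d), lfN (P.rowsO ω ⟨a.val, h⟩) c = b.val

theorem MM_rows (ω : P.Om n) (n' : ℕ) (a : Fin n') :
    {b | P.MM ω n' a b}.ncard ≤ P.d := by
  classical
  by_cases h : a.val < n
  · set r := P.rowsO ω ⟨a.val, h⟩ with hr
    calc {b | P.MM ω n' a b}.ncard ≤
          ((univ.image (fun c : Fin P.d => lfN r c) : Finset ℕ) : Set ℕ).ncard := by
          apply Set.ncard_le_ncard_of_injOn (fun b : Fin n' => b.val)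
          · rintro b ⟨_, c, hc⟩
            simp only [coe_image, coe_univ, Set.image_univ, Set.mem_range]
            exact ⟨c, hc⟩
          · intro b _ b' _ hbb
            exact Fin.ext hbb
      _ ≤ P.d := by
          rw [Set.ncard_coe_finset]
          refine card_image_le.trans (le_of_eq ?_)
          rw [card_univ, Fintype.card_fin]
  · have : {b | P.MM ω n' a b} = ∅ := by
      ext b
      simp only [Set.mem_ofPred_eq, Set.mem_empty_iff_false, iff_false]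
      rintro ⟨h', _⟩
      exact h h'
    rw [this, Set.ncard_empty]
    exact Nat.zero_le _

theorem no_copy {v n' : ℕ} (ω : P.Om n) (hn : n ≤ n') (hm : P.z ^ P.D ≤ n')
    (hbl : ∀ i < P.L, P.bl i ∣ n)
    (hcount : 2 * P.bl (P.L - 1) * (P.N / P.T (P.L - 1)) +
      (P.L - 1) * (v * P.z ^ P.ρ * (2 * (P.z ^ (P.τ + 2)))) + v * P.T 0 < n)
    (H : ∀ (i : Fin P.L) (γ : ZMod 2), ∀ ψ : Fin (P.z ^ P.D) → Fin P.N, StrictMono ψ →
      ¬ ∃ (f : Fin v → Fin (n / P.bl i.val)) (g : Fin v → Fin (P.N / P.T i.val)),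
        StrictMono f ∧ StrictMono g ∧ ∀ l, P.Ev ψ i γ (f l) (g l) ω) :
    ¬ Pool.Agent.H68.RS.HasMonoCopy (P.MM ω n')
      (fun x y => decide (P.col (P.flipO ω) x y = 1)) := by
  rintro ⟨t, f0, g0, hf0, hg0, hcol⟩
  obtain ⟨ψ, hψd⟩ : ∃ ψ : Fin (P.z ^ P.D) → Fin P.N, ∀ b, ψ b = g0 (Fin.castLE hm b) :=
    ⟨_, fun _ => rfl⟩
  obtain ⟨φ, hφd⟩ : ∃ φ : Fin n → Fin P.N, ∀ a, φ a = f0 (Fin.castLE hn a) :=
    ⟨_, fun _ => rfl⟩
  have hψ : StrictMono ψ := by
    intro a b hab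
    rw [hψd, hψd]
    exact hg0 hab
  have hφ : StrictMono φ := by
    intro a b hab
    rw [hφd, hφd]
    exact hf0 hab
  have hLL : P.L - 1 < P.L := by have := P.hL; omega
  have hcnt := countL (n := n) (v := v) (L := P.L) (w := P.z ^ P.ρ)
    (K := P.N / P.T (P.L - 1)) (X := P.z ^ (P.τ + 2)) P.T P.bl (fun i => n / P.bl i)
    (fun i => P.bl_pos i) (fun i hi => (Nat.div_mul_cancel (hbl i hi)).symm) (by
      intro i _
      unfold bl xb
      rw [← pow_succ']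
      exact Nat.pow_le_pow_right P.zpos (by have := P.kap_le i; omega))
    (P.T_pos 0) (pow_pos P.zpos _) (by
      intro i
      unfold T
      rw [← pow_add]
      congr 1
      ring) P.hL (fun a => (φ a).val) (fun a b hab => hφ hab) (by
      intro a
      rw [Nat.div_mul_cancel (P.T_dvd_N hLL)]
      exact (φ a).2) (by
      intro i hi
      rintro ⟨f, g, hf, hg, hfn, hfg⟩
      have hbl0 := P.bl_pos i
      have hbl1 : ∀ l, f l * P.bl i < n := by
        intro l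
        have h1 := (P.idx_lt (hfn l) (0, ⟨0, P.xb_pos i⟩)).1
        omega
      have hgN : ∀ l, g l < P.N / P.T i := by
        intro l
        have h1 := hfg l ⟨f l * P.bl i, hbl1 l⟩ (Nat.mul_div_cancel _ hbl0)
        rw [← h1]
        exact Nat.div_lt_div_of_lt_of_dvd (P.T_dvd_N hi) (φ _).2
      apply H ⟨i, hi⟩ (if t then 1 else 0) ψ hψ
      refine ⟨fun l => ⟨f l, hfn l⟩, fun l => ⟨g l, hgN l⟩, fun a b hab => hf hab,
        fun a b hab => hg hab, ?_⟩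
      intro l p
      obtain ⟨a, ha⟩ : ∃ a, a = P.idx (n := n) (i := i) ⟨f l, hfn l⟩ p := ⟨_, rfl⟩
      have hdiv : a.val / P.bl i = f l := by
        rw [ha]
        exact P.idx_div _ _
      show P.Plc (P.flipO ω) ψ ⟨i, hi⟩ (g l) (if t then 1 else 0) (P.rowsO ω
        (P.idx (n := n) (i := i) ⟨f l, hfn l⟩ p))
      rw [← ha]
      refine ⟨φ a, hfg l _ hdiv, ?_⟩
      intro c
      have hlm := lfN_lt P.zpos P.D_pos (P.rowsO ω a) c
      have hM : P.MM ω n' (Fin.castLE hn a)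
          (Fin.castLE hm ⟨lfN (P.rowsO ω a) c, hlm⟩) := ⟨a.2, c, rfl⟩
      have h1 := hcol _ _ hM
      rw [← hφd, ← hψd] at h1
      have h2 : P.lf (P.rowsO ω a) c = ⟨lfN (P.rowsO ω a) c, hlm⟩ := rfl
      rw [h2]
      have key : ∀ (t : Bool) (w : ZMod 2), decide (w = 1) = t → w = if t then 1 else 0 := by
        decide
      exact key t _ h1)
  omega

theorem lower {v n' : ℕ} (hzb : 2 * (2 * P.D * (P.G + 1) + P.G) + 2 ≤ P.z) {c : ℝ}
    (hc0 : 0 ≤ c) (hc1 : c ≤ 1) (hc : c ≤ P.cst)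
    (hsum : ∑ q : Fin P.L × ZMod 2, (P.N : ℝ) ^ (P.z ^ P.D) *
      ((((n / P.bl q.1.val : ℕ) : ℝ) ^ v / (v.factorial : ℝ)) *
        (((P.N / P.T q.1.val : ℕ) : ℝ) ^ v / (v.factorial : ℝ)) * P.pz c q.1.val ^ v) < 1)
    (hn : n ≤ n') (hm : P.z ^ P.D ≤ n') (hbl : ∀ i < P.L, P.bl i ∣ n)
    (hcount : 2 * P.bl (P.L - 1) * (P.N / P.T (P.L - 1)) +
      (P.L - 1) * (v * P.z ^ P.ρ * (2 * (P.z ^ (P.τ + 2)))) + v * P.T 0 < n) :
    ∃ M : Fin n' → Fin n' → Prop, (∀ r, {c | M r c}.ncard ≤ P.d) ∧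
      (∀ r c, M r c → c.val < P.z ^ P.D) ∧ P.N < Pool.Agent.H68.RS.R M := by
  obtain ⟨ω, hω⟩ := P.exists_om hzb hc0 hc1 hc hsum
  have hn1 : 1 ≤ n' := le_trans (pow_pos P.zpos P.D) hm
  refine ⟨P.MM ω n', P.MM_rows ω n', ?_,
    lt_R hn1 (P.MM_rows ω n') (P.no_copy ω hn hm hbl hcount hω)⟩
  rintro r c ⟨h, l, hl⟩
  rw [← hl]
  exact lfN_lt P.zpos P.D_pos _ _

end Par

end Pool.Agent.H76.TY
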