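import Pool.Agent.H76.TY.Main
import Pool.Agent.H46.TS.Param

/-! The choice of the parameters. -/

namespace Pool.Agent.H76.TY

open Finset Pool.Agent.H46.SR Pool.Agent.H46.TS Filter Topology

/-- the free parameters; the number of rows is `z ^ E` -/
structure Prm where
  d : ℕ
  τ : ℕ
  E : ℕ
  hd : 1 ≤ d
  hτ : 1 ≤ τ
  hE : 2 * τ + 13 ≤ E

namespace Prm

variable (R : Prm)

/-- the side of the colouring is `z ^ G` -/
def G : ℕ := 2 * R.E - 15 - R.τ + R.d * R.τ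
/-- number of type groups -/
def K : ℕ := R.E + R.G + 1
/-- number of levels -/
def L : ℕ := R.d * R.τ

theorem L_pos : 1 ≤ R.L := Nat.mul_pos R.hd R.hτ

theorem G_eq : R.G + R.τ + 15 = R.L + 2 * R.E := by
  have := R.hE
  unfold G L
  omega

def par (z : ℕ) (hz : 2 ≤ z) (hKz : R.K ≤ z) : Par where
  z := z
  d := R.d
  K := R.K
  L := R.L
  t0 := R.E - R.τ - 10
  ρ := 1
  τ := R.τ
  D := R.τ + 8
  G := R.G
  hz := hz
  hd := R.hd
  hK := by unfold K; omega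
  hKz := hKz
  hL := R.L_pos
  hτ := R.hτ
  hG := by
    have := R.hE
    unfold G
    omega
  ht := by
    have h1 := R.G_eq
    have h2 := R.hE
    omega
  hD := le_refl _

/-- the constant -/
noncomputable def c0 : ℝ :=
  (1 / (2 * (((R.τ + 8 : ℕ) : ℝ) + 1) ^ (R.G + 1) * ((2 * (R.K * R.d) ^ R.L : ℕ) : ℝ))) ^ R.d

theorem Kd_pos : 0 < R.K * R.d := by
  have h1 : 0 < R.K := by unfold K; omega
  exact Nat.mul_pos h1 R.hd

theorem c0_pos : 0 < R.c0 := by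
  have h1 : (0 : ℝ) < ((2 * (R.K * R.d) ^ R.L : ℕ) : ℝ) := by
    have := R.Kd_pos
    have h2 : 0 < 2 * (R.K * R.d) ^ R.L := by positivity
    exact_mod_cast h2
  unfold c0
  positivity

theorem c0_le : R.c0 ≤ 1 := by
  have h1 : (1 : ℝ) ≤ ((2 * (R.K * R.d) ^ R.L : ℕ) : ℝ) := by
    have := R.Kd_pos
    have h2 : 0 < 2 * (R.K * R.d) ^ R.L := by positivity
    exact_mod_cast h2
  have h2 : (1 : ℝ) ≤ (((R.τ + 8 : ℕ) : ℝ) + 1) ^ (R.G + 1) := one_le_pow₀ (by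
    have : (0 : ℝ) ≤ ((R.τ + 8 : ℕ) : ℝ) := Nat.cast_nonneg _
    linarith)
  unfold c0
  apply pow_le_one₀ (by positivity)
  rw [div_le_one (by positivity)]
  nlinarith

/-- the constant in the exponential bound -/
noncomputable def A : ℝ := 2 * ((R.K * R.d : ℕ) : ℝ) ^ R.d / R.c0

theorem A_pos : 0 < R.A := by
  have h1 := R.c0_pos
  have h2 : (0 : ℝ) < ((R.K * R.d : ℕ) : ℝ) := by exact_mod_cast R.Kd_pos
  unfold A
  positivity

/-- the constant in the repair bound -/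
def C : ℕ := (R.L * (R.G + 1)) ^ R.d

theorem prp_le {z : ℕ} (hz : 2 ≤ z) (hKz : R.K ≤ z) {i : ℕ} (hi : i < R.L) :
    (R.par z hz hKz).prp i ≤ (R.C : ℝ) / z := by
  have hz0 : (0 : ℝ) < z := by
    have : 0 < z := by omega
    exact_mod_cast this
  have hz1 : (1 : ℝ) ≤ z := by
    have : 1 ≤ z := by omega
    exact_mod_cast this
  have hT : (R.par z hz hKz).T i / (R.par z hz hKz).T 0 = z ^ i := by
    show z ^ (R.E - R.τ - 10 + 1 * i) / z ^ (R.E - R.τ - 10 + 1 * 0) = z ^ i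
    rw [Nat.pow_div (by omega) (by omega)]
    congr 1
    omega
  have hQ : (((R.par z hz hKz).Q : ℕ) : ℝ) = (z : ℝ) ^ R.τ := by
    show ((z ^ R.τ : ℕ) : ℝ) = _
    push_cast
    rfl
  unfold Par.prp
  rw [hT, hQ]
  show ((z ^ i : ℕ) : ℝ) * (((R.L * (R.G + 1) : ℕ) : ℝ) * (1 / (z : ℝ) ^ R.τ)) ^ R.d ≤
    (((R.L * (R.G + 1)) ^ R.d : ℕ) : ℝ) / z
  rw [mul_pow, one_div_pow, ← pow_mul, le_div_iff₀ hz0]
  push_cast
  have h1 : (z : ℝ) ^ i * z ≤ (z : ℝ) ^ (R.τ * R.d) := by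
    rw [← pow_succ]
    apply pow_le_pow_right₀ hz1
    have h2 : R.τ * R.d = R.L := by unfold L; ring
    omega
  have h3 : (0 : ℝ) < (z : ℝ) ^ (R.τ * R.d) := by positivity
  have h4 : (z : ℝ) ^ i * z * (1 / (z : ℝ) ^ (R.τ * R.d)) ≤ 1 := by
    rw [mul_one_div, div_le_one h3]
    exact h1
  have h5 : (0 : ℝ) ≤ ((R.L : ℝ) * ((R.G : ℝ) + 1)) ^ R.d := by positivity
  calc (z : ℝ) ^ i * (((R.L : ℝ) * ((R.G : ℝ) + 1)) ^ R.d * (1 / (z : ℝ) ^ (R.τ * R.d))) * z =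
        ((R.L : ℝ) * ((R.G : ℝ) + 1)) ^ R.d *
          ((z : ℝ) ^ i * z * (1 / (z : ℝ) ^ (R.τ * R.d))) := by ring
    _ ≤ ((R.L : ℝ) * ((R.G : ℝ) + 1)) ^ R.d * 1 := mul_le_mul_of_nonneg_left h4 h5
    _ = _ := mul_one _

theorem pz_le {z : ℕ} (hz : 2 ≤ z) (hKz : R.K ≤ z) {i : ℕ} (hi : i < R.L)
    (h2 : ((R.E : ℝ) + R.G) * Real.log z + Real.log (4 * R.K * (2 * (R.L : ℝ) + 1)) ≤ z / R.A)
    (h3 : 4 * (R.C : ℝ) ^ R.K * (2 * (R.L : ℝ) + 1) ≤ z) :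
    2 * ((z : ℝ) ^ R.E * (z : ℝ) ^ R.G) * (R.par z hz hKz).pz (R.c0 / 2) i ≤
      1 / (2 * (R.L : ℝ) + 1) := by
  have hz0 : (0 : ℝ) < z := by
    have : 0 < z := by omega
    exact_mod_cast this
  have hz1 : (1 : ℝ) ≤ z := by
    have : 1 ≤ z := by omega
    exact_mod_cast this
  have hc0 := R.c0_pos
  have hc1 := R.c0_le
  have hKR : (0 : ℝ) < R.K := by
    have : 0 < R.K := by unfold K; omega
    exact_mod_cast this
  have hL1 : (0 : ℝ) < 2 * (R.L : ℝ) + 1 := by positivity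
  have hpst := (R.par z hz hKz).pst_le i
  have hpst0 := (R.par z hz hKz).pst_nonneg i
  -- the exponential part
  have h4 : (1 - R.c0 / 2 * (R.par z hz hKz).pst i) ^ (R.par z hz hKz).xb i ≤
      Real.exp (-(z / R.A)) := by
    refine (one_sub_pow_le (by nlinarith) _).trans (le_of_eq ?_)
    congr 2
    show R.c0 / 2 * (1 / ((z ^ (R.par z hz hKz).kap i : ℕ) : ℝ) *
      (1 / ((R.K * R.d : ℕ) : ℝ)) ^ R.d) * ((z ^ ((R.par z hz hKz).kap i + 1) : ℕ) : ℝ) = z / R.A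
    unfold A
    have h5 : (0 : ℝ) < ((R.K * R.d : ℕ) : ℝ) := by exact_mod_cast R.Kd_pos
    rw [one_div_pow, pow_succ]
    push_cast at h5 ⊢
    field_simp
  have h5 : 2 * ((z : ℝ) ^ R.E * (z : ℝ) ^ R.G) * (R.K * Real.exp (-(z / R.A))) ≤
      1 / (2 * (2 * (R.L : ℝ) + 1)) := by
    have h6 : (z : ℝ) ^ R.E * (z : ℝ) ^ R.G = Real.exp (((R.E : ℝ) + R.G) * Real.log z) := by
      rw [← pow_add, ← Real.rpow_natCast, Real.rpow_def_of_pos hz0]
      congr 1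
      push_cast
      ring
    have h7 : Real.exp (((R.E : ℝ) + R.G) * Real.log z) * Real.exp (-(z / R.A)) ≤
        1 / (4 * R.K * (2 * (R.L : ℝ) + 1)) := by
      rw [← Real.exp_add]
      have h8 : (0 : ℝ) < 4 * R.K * (2 * (R.L : ℝ) + 1) := by positivity
      have h9 : 1 / (4 * R.K * (2 * (R.L : ℝ) + 1)) =
          Real.exp (-Real.log (4 * R.K * (2 * (R.L : ℝ) + 1))) := by
        rw [Real.exp_neg, Real.exp_log h8, one_div]
      rw [h9]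
      apply Real.exp_le_exp.mpr
      linarith
    rw [h6]
    have h8 : 2 * Real.exp (((R.E : ℝ) + R.G) * Real.log z) * (R.K * Real.exp (-(z / R.A))) =
        2 * R.K * (Real.exp (((R.E : ℝ) + R.G) * Real.log z) * Real.exp (-(z / R.A))) := by ring
    rw [h8]
    calc 2 * (R.K : ℝ) * (Real.exp (((R.E : ℝ) + R.G) * Real.log z) * Real.exp (-(z / R.A)))
        ≤ 2 * R.K * (1 / (4 * R.K * (2 * (R.L : ℝ) + 1))) :=
          mul_le_mul_of_nonneg_left h7 (by positivity)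
      _ = 1 / (2 * (2 * (R.L : ℝ) + 1)) := by
          field_simp
          ring
  -- the repair part
  have h6 := R.prp_le hz hKz hi
  have h7 : (R.par z hz hKz).prp i ^ R.K ≤ (R.C : ℝ) ^ R.K / (z : ℝ) ^ R.K := by
    rw [← div_pow]
    exact pow_le_pow_left₀ ((R.par z hz hKz).prp_nonneg i) h6 _
  have h8 : 2 * ((z : ℝ) ^ R.E * (z : ℝ) ^ R.G) * ((R.C : ℝ) ^ R.K / (z : ℝ) ^ R.K) ≤
      1 / (2 * (2 * (R.L : ℝ) + 1)) := by
    have h9 : (z : ℝ) ^ R.K = (z : ℝ) ^ R.E * (z : ℝ) ^ R.G * z := by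
      rw [← pow_add, ← pow_succ]
      rfl
    rw [h9]
    have h10 : (0 : ℝ) < (z : ℝ) ^ R.E * (z : ℝ) ^ R.G := by positivity
    have h11 : 2 * ((z : ℝ) ^ R.E * (z : ℝ) ^ R.G) *
        ((R.C : ℝ) ^ R.K / ((z : ℝ) ^ R.E * (z : ℝ) ^ R.G * z)) = 2 * (R.C : ℝ) ^ R.K / z := by
      field_simp
    rw [h11, div_le_div_iff₀ hz0 (by positivity)]
    nlinarith
  have h9 : (R.par z hz hKz).pz (R.c0 / 2) i ≤
      R.K * Real.exp (-(z / R.A)) + (R.C : ℝ) ^ R.K / (z : ℝ) ^ R.K := by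
    unfold Par.pz
    apply add_le_add _ h7
    exact mul_le_mul_of_nonneg_left h4 hKR.le
  have h10 : (0 : ℝ) < (z : ℝ) ^ R.E * (z : ℝ) ^ R.G := by positivity
  calc 2 * ((z : ℝ) ^ R.E * (z : ℝ) ^ R.G) * (R.par z hz hKz).pz (R.c0 / 2) i
      ≤ 2 * ((z : ℝ) ^ R.E * (z : ℝ) ^ R.G) *
        (R.K * Real.exp (-(z / R.A)) + (R.C : ℝ) ^ R.K / (z : ℝ) ^ R.K) :=
        mul_le_mul_of_nonneg_left h9 (by positivity)
    _ ≤ 1 / (2 * (2 * (R.L : ℝ) + 1)) + 1 / (2 * (2 * (R.L : ℝ) + 1)) := by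
        rw [mul_add]
        exact add_le_add h5 h8
    _ = 1 / (2 * (R.L : ℝ) + 1) := by
        field_simp
        ring

/-- the bound of one term of the union bound -/
theorem term_le {z : ℕ} (hz : 2 ≤ z) (hKz : R.K ≤ z) {i : ℕ} (hi : i < R.L)
    (h1 : (R.G : ℝ) * Real.log z ≤ z / (1 / Real.log 2))
    (h2 : ((R.E : ℝ) + R.G) * Real.log z + Real.log (4 * R.K * (2 * (R.L : ℝ) + 1)) ≤ z / R.A)
    (h3 : 4 * (R.C : ℝ) ^ R.K * (2 * (R.L : ℝ) + 1) ≤ z) :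
    (((R.par z hz hKz).N : ℕ) : ℝ) ^ (z ^ (R.τ + 8)) *
      ((((z ^ R.E / (R.par z hz hKz).bl i : ℕ) : ℝ) ^ (z ^ (R.τ + 9)) /
        ((z ^ (R.τ + 9)).factorial : ℝ)) *
      ((((R.par z hz hKz).N / (R.par z hz hKz).T i : ℕ) : ℝ) ^ (z ^ (R.τ + 9)) /
        ((z ^ (R.τ + 9)).factorial : ℝ)) *
        (R.par z hz hKz).pz (R.c0 / 2) i ^ (z ^ (R.τ + 9))) ≤ 1 / (2 * (R.L : ℝ) + 1) := by
  have hz0 : (0 : ℝ) < z := by
    have : 0 < z := by omega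
    exact_mod_cast this
  have hz1 : (1 : ℝ) ≤ z := by
    have : 1 ≤ z := by omega
    exact_mod_cast this
  have hc0 := R.c0_pos
  have hc1 := R.c0_le
  have hmain := R.pz_le hz hKz hi h2 h3
  obtain ⟨pp, hpp⟩ : ∃ pp : ℝ, pp = (R.par z hz hKz).pz (R.c0 / 2) i := ⟨_, rfl⟩
  have hpp0 := (R.par z hz hKz).pz_nonneg (c := R.c0 / 2) (by linarith) (by linarith) i
  rw [← hpp] at hmain hpp0 ⊢
  obtain ⟨v, hv⟩ : ∃ v : ℕ, v = z ^ (R.τ + 9) := ⟨_, rfl⟩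
  have hv0 : v ≠ 0 := by rw [hv]; positivity
  have hvR : ((v : ℕ) : ℝ) = (z : ℝ) ^ (R.τ + 9) := by rw [hv]; push_cast; rfl
  rw [← hv]
  have hfac : ∀ a b : ℝ, 0 ≤ a → a ≤ b → a ^ v / (v.factorial : ℝ) ≤ b ^ v := by
    intro a b ha hab
    have h4 : (1 : ℝ) ≤ v.factorial := by exact_mod_cast Nat.factorial_pos v
    calc a ^ v / (v.factorial : ℝ) ≤ a ^ v := div_le_self (by positivity) h4
      _ ≤ b ^ v := pow_le_pow_left₀ ha hab _
  have hN : (((R.par z hz hKz).N : ℕ) : ℝ) = (z : ℝ) ^ R.G := by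
    show ((z ^ R.G : ℕ) : ℝ) = _
    push_cast
    rfl
  have hNm : (((R.par z hz hKz).N : ℕ) : ℝ) ^ (z ^ (R.τ + 8)) ≤ 2 ^ v := by
    rw [hN, ← pow_mul]
    have h4 : (z : ℝ) ^ (R.G * z ^ (R.τ + 8)) =
        Real.exp ((R.G * (z : ℝ) ^ (R.τ + 8)) * Real.log z) := by
      rw [← Real.rpow_natCast, Real.rpow_def_of_pos hz0]
      congr 1
      push_cast
      ring
    have h5 : (2 : ℝ) ^ v = Real.exp ((z : ℝ) ^ (R.τ + 8) * z * Real.log 2) := by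
      rw [← Real.rpow_natCast, Real.rpow_def_of_pos (by norm_num : (0 : ℝ) < 2)]
      congr 1
      rw [hvR, pow_succ (z : ℝ) (R.τ + 8)]
      ring
    rw [h4, h5]
    apply Real.exp_le_exp.mpr
    have hl2 : 0 < Real.log 2 := Real.log_pos (by norm_num)
    have h6 : (R.G : ℝ) * Real.log z ≤ z * Real.log 2 := by
      rw [div_div_eq_mul_div, div_one] at h1
      exact h1
    have h7 : (0 : ℝ) ≤ (z : ℝ) ^ (R.τ + 8) := by positivity
    nlinarith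
  have hA : ((z ^ R.E / (R.par z hz hKz).bl i : ℕ) : ℝ) ^ v / (v.factorial : ℝ) ≤
      ((z : ℝ) ^ R.E) ^ v := by
    apply hfac _ _ (Nat.cast_nonneg _)
    have h4 : z ^ R.E / (R.par z hz hKz).bl i ≤ z ^ R.E := Nat.div_le_self _ _
    exact_mod_cast h4
  have hB : (((R.par z hz hKz).N / (R.par z hz hKz).T i : ℕ) : ℝ) ^ v / (v.factorial : ℝ) ≤
      ((z : ℝ) ^ R.G) ^ v := by
    apply hfac _ _ (Nat.cast_nonneg _)
    rw [← hN]
    have h4 : (R.par z hz hKz).N / (R.par z hz hKz).T i ≤ (R.par z hz hKz).N :=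
      Nat.div_le_self _ _
    exact_mod_cast h4
  have hA0 : 0 ≤ ((z ^ R.E / (R.par z hz hKz).bl i : ℕ) : ℝ) ^ v / (v.factorial : ℝ) := by
    positivity
  have hB0 : 0 ≤ (((R.par z hz hKz).N / (R.par z hz hKz).T i : ℕ) : ℝ) ^ v /
      (v.factorial : ℝ) := by positivity
  calc (((R.par z hz hKz).N : ℕ) : ℝ) ^ (z ^ (R.τ + 8)) *
      ((((z ^ R.E / (R.par z hz hKz).bl i : ℕ) : ℝ) ^ v / (v.factorial : ℝ)) *
      ((((R.par z hz hKz).N / (R.par z hz hKz).T i : ℕ) : ℝ) ^ v / (v.factorial : ℝ)) * pp ^ v)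
      ≤ 2 ^ v * (((z : ℝ) ^ R.E) ^ v * ((z : ℝ) ^ R.G) ^ v * pp ^ v) := by
        apply mul_le_mul hNm _ (by positivity) (by positivity)
        apply mul_le_mul_of_nonneg_right _ (by positivity)
        exact mul_le_mul hA hB hB0 (by positivity)
    _ = (2 * ((z : ℝ) ^ R.E * (z : ℝ) ^ R.G) * pp) ^ v := by
        rw [mul_pow, mul_pow, mul_pow]
        ring
    _ ≤ (1 / (2 * (R.L : ℝ) + 1)) ^ v := pow_le_pow_left₀ (by positivity) hmain _
    _ ≤ (1 / (2 * (R.L : ℝ) + 1)) ^ 1 := by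
        apply pow_le_pow_of_le_one (by positivity) _ (by omega)
        rw [div_le_one (by positivity)]
        have : (0 : ℝ) ≤ R.L := Nat.cast_nonneg _
        linarith
    _ = 1 / (2 * (R.L : ℝ) + 1) := pow_one _

theorem lower_z {z : ℕ} (hz : 2 ≤ z) (hKz : R.K ≤ z)
    (h0 : 2 * (2 * (R.τ + 8) * (R.G + 1) + R.G) + 2 ≤ z)
    (h1 : (R.G : ℝ) * Real.log z ≤ z / (1 / Real.log 2))
    (h2 : ((R.E : ℝ) + R.G) * Real.log z + Real.log (4 * R.K * (2 * (R.L : ℝ) + 1)) ≤ z / R.A)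
    (h3 : 4 * (R.C : ℝ) ^ R.K * (2 * (R.L : ℝ) + 1) ≤ z)
    (h4 : 4 * (R.d : ℝ) ^ 2 / R.c0 ≤ z) (h5 : 2 * R.L + 2 ≤ z)
    {n' : ℕ} (hn : z ^ R.E ≤ n') :
    ∃ M : Fin n' → Fin n' → Prop, (∀ r, {c | M r c}.ncard ≤ R.d) ∧
      (∀ r c, M r c → c.val < z ^ (R.τ + 8)) ∧ z ^ R.G < Pool.Agent.H68.RS.R M := by
  have hz0 : (0 : ℝ) < z := by
    have : 0 < z := by omega
    exact_mod_cast this
  have hzpos : 0 < z := by omega
  have hc0 := R.c0_pos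
  have hL := R.L_pos
  have hkL : (R.par z hz hKz).kap (R.L - 1) = 1 := by
    show (if R.L - 1 + 1 = R.L then 1 else R.τ) = 1
    rw [if_pos (by omega)]
  have key := (R.par z hz hKz).lower (n := z ^ R.E) (v := z ^ (R.τ + 9)) (n' := n') h0
    (c := R.c0 / 2) (by linarith) (by have := R.c0_le; linarith) (by
      show R.c0 / 2 ≤ R.c0 - 2 * (R.d : ℝ) ^ 2 / z
      have h6 : 2 * (R.d : ℝ) ^ 2 / z ≤ R.c0 / 2 := by
        rw [div_le_iff₀ hz0]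
        rw [div_le_iff₀ hc0] at h4
        linarith
      linarith) (by
      have h6 : ∀ q ∈ (univ : Finset (Fin (R.par z hz hKz).L × ZMod 2)),
          (((R.par z hz hKz).N : ℕ) : ℝ) ^ (z ^ (R.τ + 8)) *
          ((((z ^ R.E / (R.par z hz hKz).bl q.1.val : ℕ) : ℝ) ^ (z ^ (R.τ + 9)) /
            ((z ^ (R.τ + 9)).factorial : ℝ)) *
          ((((R.par z hz hKz).N / (R.par z hz hKz).T q.1.val : ℕ) : ℝ) ^ (z ^ (R.τ + 9)) /
            ((z ^ (R.τ + 9)).factorial : ℝ)) *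
          (R.par z hz hKz).pz (R.c0 / 2) q.1.val ^ (z ^ (R.τ + 9))) ≤
            1 / (2 * (R.L : ℝ) + 1) :=
        fun q _ => R.term_le hz hKz q.1.2 h1 h2 h3
      refine lt_of_le_of_lt (Finset.sum_le_sum h6) ?_
      rw [Finset.sum_const, card_univ, Fintype.card_prod, ZMod.card, nsmul_eq_mul, mul_one_div,
        Fintype.card_fin, div_lt_one (by positivity)]
      show ((R.L * 2 : ℕ) : ℝ) < _
      push_cast
      linarith) hn (le_trans (Nat.pow_le_pow_right hzpos (by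
        show R.τ + 8 ≤ R.E
        have := R.hE
        omega)) hn) (by
      intro i _
      show z * z ^ ((R.par z hz hKz).kap i + 1) ∣ z ^ R.E
      rw [← pow_succ']
      apply pow_dvd_pow
      have h6 : (R.par z hz hKz).kap i ≤ R.τ := (R.par z hz hKz).kap_le i
      have := R.hE
      omega) (by
      show 2 * (z * z ^ ((R.par z hz hKz).kap (R.L - 1) + 1)) *
        (z ^ R.G / z ^ (R.E - R.τ - 10 + 1 * (R.L - 1))) +
        (R.L - 1) * (z ^ (R.τ + 9) * z ^ 1 * (2 * (z ^ (R.τ + 2)))) +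
        z ^ (R.τ + 9) * z ^ (R.E - R.τ - 10 + 1 * 0) < z ^ R.E
      have hG := R.G_eq
      have hE := R.hE
      have e1 : 2 * (z * z ^ ((R.par z hz hKz).kap (R.L - 1) + 1)) *
          (z ^ R.G / z ^ (R.E - R.τ - 10 + 1 * (R.L - 1))) = 2 * z ^ (R.E - 1) := by
        rw [hkL, Nat.pow_div (by omega) hzpos, mul_assoc, ← pow_succ', ← pow_add]
        congr 2
        omega
      have e2 : (R.L - 1) * (z ^ (R.τ + 9) * z ^ 1 * (2 * (z ^ (R.τ + 2)))) ≤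
          (R.L - 1) * 2 * z ^ (R.E - 1) := by
        have h1 : z ^ (2 * R.τ + 12) = z ^ (R.τ + 9) * z ^ 1 * z ^ (R.τ + 2) := by
          rw [← pow_add, ← pow_add]
          congr 1
          omega
        have h2 : z ^ (2 * R.τ + 12) ≤ z ^ (R.E - 1) := Nat.pow_le_pow_right hzpos (by omega)
        calc (R.L - 1) * (z ^ (R.τ + 9) * z ^ 1 * (2 * (z ^ (R.τ + 2)))) =
            (R.L - 1) * 2 * z ^ (2 * R.τ + 12) := by
              rw [h1]
              ring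
          _ ≤ _ := Nat.mul_le_mul_left _ h2
      have e3 : z ^ (R.τ + 9) * z ^ (R.E - R.τ - 10 + 1 * 0) = z ^ (R.E - 1) := by
        rw [← pow_add]
        congr 1
        omega
      have e4 : z ^ R.E = z * z ^ (R.E - 1) := by
        rw [← pow_succ']
        congr 1
        omega
      rw [e1, e3, e4]
      have hp : 0 < z ^ (R.E - 1) := pow_pos hzpos _
      have e5 : 2 * z ^ (R.E - 1) + (R.L - 1) * 2 * z ^ (R.E - 1) +
          z ^ (R.E - 1) = (2 + (R.L - 1) * 2 + 1) * z ^ (R.E - 1) := by ring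
      have e6 : (2 + (R.L - 1) * 2 + 1) * z ^ (R.E - 1) < z * z ^ (R.E - 1) :=
        Nat.mul_lt_mul_of_pos_right (by omega) hp
      omega)
  exact key

theorem eventually_z : ∀ᶠ z : ℕ in atTop, ∀ n', z ^ R.E ≤ n' →
    ∃ M : Fin n' → Fin n' → Prop, (∀ r, {c | M r c}.ncard ≤ R.d) ∧
      (∀ r c, M r c → c.val < z ^ (R.τ + 8)) ∧ z ^ R.G < Pool.Agent.H68.RS.R M := by
  have hl2 : 0 < Real.log 2 := Real.log_pos (by norm_num)
  filter_upwards [eventually_ge_atTop 2, eventually_ge_atTop R.K,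
    eventually_ge_atTop (2 * (2 * (R.τ + 8) * (R.G + 1) + R.G) + 2),
    ev_log (R.G : ℝ) 0 (1 / Real.log 2) (by positivity),
    ev_log ((R.E : ℝ) + R.G) (Real.log (4 * R.K * (2 * (R.L : ℝ) + 1))) R.A R.A_pos,
    ev_const (4 * (R.C : ℝ) ^ R.K * (2 * (R.L : ℝ) + 1)),
    ev_const (4 * (R.d : ℝ) ^ 2 / R.c0),
    eventually_ge_atTop (2 * R.L + 2)] with z hz hKz h0 h1 h2 h3 h4 h5 n' hn
  rw [add_zero] at h1
  exact R.lower_z hz hKz h0 h1 h2 h3 h4 h5 hn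

theorem eventually_n {α : ℝ} (hα0 : 0 ≤ α) (hα : α * R.E < R.G) :
    ∀ᶠ n : ℕ in atTop, ∃ z : ℕ, z ^ R.E ≤ n ∧
      ∃ M : Fin n → Fin n → Prop, (∀ r, {c | M r c}.ncard ≤ R.d) ∧
      (∀ r c, M r c → c.val < z ^ (R.τ + 8)) ∧ (n : ℝ) ^ α ≤ Pool.Agent.H68.RS.R M := by
  have hm1 : 1 ≤ R.E := by have := R.hE; omega
  have hm0 : (0 : ℝ) < R.E := by exact_mod_cast hm1
  have hz : Tendsto (fun n : ℕ => ⌊(n : ℝ) ^ (1 / (R.E : ℝ))⌋₊) atTop atTop := by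
    apply tendsto_nat_floor_atTop.comp
    exact (tendsto_rpow_atTop (by positivity)).comp tendsto_natCast_atTop_atTop
  have e1 := hz.eventually R.eventually_z
  have e2 : ∀ᶠ z : ℕ in atTop, (2 : ℝ) ^ (α * R.E) ≤ (z : ℝ) ^ (R.G - α * R.E) :=
    ((tendsto_rpow_atTop (by linarith)).comp tendsto_natCast_atTop_atTop).eventually
      (eventually_ge_atTop _)
  have e3 := hz.eventually e2
  have e4 := hz.eventually (eventually_ge_atTop 1)
  filter_upwards [e1, e3, e4] with n h1 h2 h3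
  set z := ⌊(n : ℝ) ^ (1 / (R.E : ℝ))⌋₊ with hzdef
  have hz1 : (1 : ℝ) ≤ z := by exact_mod_cast h3
  have hn0 : (0 : ℝ) ≤ n := Nat.cast_nonneg _
  have hroot : ((n : ℝ) ^ (1 / (R.E : ℝ))) ^ R.E = n := by
    rw [← Real.rpow_natCast, ← Real.rpow_mul hn0]
    rw [one_div_mul_cancel hm0.ne', Real.rpow_one]
  have hle : z ^ R.E ≤ n := by
    have h4 : (z : ℝ) ≤ (n : ℝ) ^ (1 / (R.E : ℝ)) := Nat.floor_le (by positivity)
    have h5 : (z : ℝ) ^ R.E ≤ n := by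
      rw [← hroot]
      exact pow_le_pow_left₀ (by linarith) h4 _
    exact_mod_cast h5
  have hlt : (n : ℝ) ≤ (2 * z : ℝ) ^ (R.E : ℝ) := by
    have h4 : (n : ℝ) ^ (1 / (R.E : ℝ)) ≤ 2 * z := by
      have := (Nat.lt_floor_add_one ((n : ℝ) ^ (1 / (R.E : ℝ)))).le
      rw [← hzdef] at this
      linarith
    rw [Real.rpow_natCast, ← hroot]
    exact pow_le_pow_left₀ (by positivity) h4 _
  obtain ⟨M, hM1, hM2, hM3⟩ := h1 n hle
  refine ⟨z, hle, M, hM1, hM2, ?_⟩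
  have hfin' : (z : ℝ) ^ (R.G : ℝ) ≤ Pool.Agent.H68.RS.R M := by
    rw [Real.rpow_natCast]
    exact_mod_cast hM3.le
  refine le_trans ?_ hfin'
  calc (n : ℝ) ^ α ≤ ((2 * z : ℝ) ^ (R.E : ℝ)) ^ α := Real.rpow_le_rpow hn0 hlt hα0
    _ = (2 * z : ℝ) ^ (α * R.E) := by
        rw [← Real.rpow_mul (by linarith)]
        congr 1
        ring
    _ = (2 : ℝ) ^ (α * R.E) * (z : ℝ) ^ (α * R.E) :=
        Real.mul_rpow (by norm_num) (by linarith)
    _ ≤ (z : ℝ) ^ (R.G - α * R.E) * (z : ℝ) ^ (α * R.E) :=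
        mul_le_mul_of_nonneg_right h2 (by positivity)
    _ = (z : ℝ) ^ (R.G : ℝ) := by
        rw [← Real.rpow_add (by linarith)]
        congr 1
        ring

end Prm

/-- the lower bound for matrices with at most `n ^ μ` non-zero columns, `μ ≤ 1 / 2` -/
theorem exponent_cols {d : ℕ} (hd : 1 ≤ d) {μ : ℝ} (hμ0 : 0 < μ) (hμ : μ ≤ 1 / 2) {α : ℝ}
    (hα : α < 2 + ((d : ℝ) - 1) * μ) :
    ∀ᶠ n : ℕ in atTop, ∃ M : Fin n → Fin n → Prop, (∀ r, {c | M r c}.ncard ≤ d) ∧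
      ({c | ∃ r, M r c}.ncard : ℝ) ≤ (n : ℝ) ^ μ ∧ (n : ℝ) ^ α ≤ Pool.Agent.H68.RS.R M := by
  obtain ⟨α', hα'd⟩ : ∃ α' : ℝ, α' = max α 0 := ⟨_, rfl⟩
  have hd1 : (1 : ℝ) ≤ d := by exact_mod_cast hd
  have hα'0 : 0 ≤ α' := by rw [hα'd]; exact le_max_right _ _
  have hd2 : 0 ≤ ((d : ℝ) - 1) * μ := mul_nonneg (by linarith) hμ0.le
  have hα' : α' < 2 + ((d : ℝ) - 1) * μ := by
    rw [hα'd]
    apply max_lt hα
    linarith
  obtain ⟨δ, hδ⟩ : ∃ δ : ℝ, δ = 2 + ((d : ℝ) - 1) * μ - α' := ⟨_, rfl⟩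
  have hδ0 : 0 < δ := by linarith
  obtain ⟨τ, hτ⟩ := exists_nat_gt (15 * (d : ℝ) / δ)
  have hτ0 : (0 : ℝ) < τ := lt_of_le_of_lt (by positivity) hτ
  have hτ1 : 1 ≤ τ := by exact_mod_cast hτ0
  rw [div_lt_iff₀ hδ0] at hτ
  obtain ⟨E, hE⟩ : ∃ E : ℕ, E = ⌈((τ : ℝ) + 8) / μ⌉₊ + 13 := ⟨_, rfl⟩
  have hE1 : ((τ : ℝ) + 8) / μ + 13 ≤ E := by
    rw [hE]
    push_cast
    have := Nat.le_ceil (((τ : ℝ) + 8) / μ)
    linarith
  have hE2 : (E : ℝ) ≤ ((τ : ℝ) + 8) / μ + 14 := by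
    rw [hE]
    push_cast
    have := (Nat.ceil_lt_add_one (a := ((τ : ℝ) + 8) / μ) (by positivity)).le
    linarith
  have hE3 : ((τ : ℝ) + 8) ≤ E * μ := by
    have h1 : ((τ : ℝ) + 8) / μ * μ = (τ : ℝ) + 8 := div_mul_cancel₀ _ hμ0.ne'
    nlinarith
  have hE4 : E * μ ≤ (τ : ℝ) + 15 := by
    have h1 : ((τ : ℝ) + 8) / μ * μ = (τ : ℝ) + 8 := div_mul_cancel₀ _ hμ0.ne'
    nlinarith
  have hE5 : 2 * (τ : ℝ) + 13 ≤ E := by
    have h1 : ((τ : ℝ) + 8) * 2 ≤ ((τ : ℝ) + 8) / μ := by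
      rw [le_div_iff₀ hμ0]
      nlinarith
    linarith
  have hE6 : 2 * τ + 13 ≤ E := by exact_mod_cast hE5
  have hG : ((Prm.mk d τ E hd hτ1 hE6).G : ℝ) = 2 * E - 15 - τ + d * τ := by
    have h1 := (Prm.mk d τ E hd hτ1 hE6).G_eq
    have h2 : (((Prm.mk d τ E hd hτ1 hE6).G + τ + 15 : ℕ) : ℝ) = ((d * τ + 2 * E : ℕ) : ℝ) :=
      congrArg _ h1
    push_cast at h2
    linarith
  have h2 := (Prm.mk d τ E hd hτ1 hE6).eventually_n (α := α') hα'0 (by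
    rw [hG]
    show α' * (E : ℝ) < _
    have h3 : ((d : ℝ) - 1) * (E * μ) ≤ ((d : ℝ) - 1) * (τ + 15) :=
      mul_le_mul_of_nonneg_left hE4 (by linarith)
    have h4 : (τ : ℝ) * δ ≤ E * δ := mul_le_mul_of_nonneg_right (by linarith) hδ0.le
    have h5 : α' = 2 + ((d : ℝ) - 1) * μ - δ := by rw [hδ]; ring
    rw [h5]
    nlinarith)
  filter_upwards [h2, eventually_ge_atTop 1] with n hn hn1
  obtain ⟨z, hz, M, hM1, hM2, hM3⟩ := hn
  have hn1' : (1 : ℝ) ≤ n := by exact_mod_cast hn1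
  refine ⟨M, hM1, ?_, ?_⟩
  · have h3 : {c : Fin n | ∃ r, M r c}.ncard ≤ z ^ (τ + 8) := by
      calc {c : Fin n | ∃ r, M r c}.ncard ≤ ((Finset.range (z ^ (τ + 8)) : Finset ℕ) :
            Set ℕ).ncard := by
            apply Set.ncard_le_ncard_of_injOn (fun b : Fin n => b.val)
            · rintro b ⟨r, hr⟩
              simpa using hM2 r b hr
            · intro b _ b' _ hbb
              exact Fin.ext hbb
        _ = z ^ (τ + 8) := by
            rw [Set.ncard_coe_finset, card_range]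
    rcases Nat.eq_zero_or_pos z with hz0 | hz0
    · rw [hz0] at h3
      have h4 : {c : Fin n | ∃ r, M r c}.ncard ≤ 0 := by
        refine h3.trans (le_of_eq ?_)
        rw [zero_pow (by omega)]
      have h5 : (({c : Fin n | ∃ r, M r c}.ncard : ℕ) : ℝ) ≤ ((0 : ℕ) : ℝ) := by
        exact_mod_cast h4
      refine h5.trans ?_
      push_cast
      positivity
    · have hz1 : (1 : ℝ) ≤ z := by exact_mod_cast hz0
      have h4 : ((z : ℝ)) ^ ((E : ℕ) : ℝ) ≤ n := by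
        rw [Real.rpow_natCast]
        exact_mod_cast hz
      calc (({c : Fin n | ∃ r, M r c}.ncard : ℕ) : ℝ) ≤ ((z ^ (τ + 8) : ℕ) : ℝ) := by
            exact_mod_cast h3
        _ = (z : ℝ) ^ ((τ : ℝ) + 8) := by
            rw [show ((τ : ℝ) + 8) = ((τ + 8 : ℕ) : ℝ) by push_cast; ring, Real.rpow_natCast]
            push_cast
            rfl
        _ ≤ (z : ℝ) ^ (E * μ) := Real.rpow_le_rpow_of_exponent_le hz1 hE3
        _ = ((z : ℝ) ^ ((E : ℕ) : ℝ)) ^ μ := Real.rpow_mul (by linarith) _ _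
        _ ≤ (n : ℝ) ^ μ := Real.rpow_le_rpow (by positivity) h4 hμ0.le
  · refine le_trans ?_ hM3
    apply Real.rpow_le_rpow_of_exponent_le hn1'
    rw [hα'd]
    exact le_max_left _ _

/-- the lower bound for `f d n` -/
theorem exponent {d : ℕ} (hd : 1 ≤ d) {α : ℝ} (hα : α < ((d : ℝ) + 3) / 2) :
    ∀ᶠ n : ℕ in atTop, (n : ℝ) ^ α ≤ Pool.Agent.H68.RS.f d n := by
  have h := exponent_cols hd (μ := 1 / 2) (by norm_num) le_rfl (α := α) (by linarith)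
  filter_upwards [h, eventually_ge_atTop 1] with n hn hn1
  obtain ⟨M, hM1, _, hM3⟩ := hn
  refine le_trans hM3 ?_
  exact_mod_cast le_f hn1 hM1

end Pool.Agent.H76.TY
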