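import Pool.Agent.H76.TY.Param

/-! The growth of `f_d(n)` (at most `d` 1-entries in each row). -/

namespace Pool.Agent.H76.TY.RowExponentOld

open Pool.Agent.H68.RS Filter

/-- For every `d ≥ 1`: `f_d(n) ≤ n^(d+1)` for all `n ≥ 1` (and `R(M) ≤ n^(d+1)` for every `n × n`
matrix `M` with at most `d` 1-entries in each row), and for every `α < (d + 3) / 2`,
`f_d(n) ≥ n^α` for all large `n`. So `n^((d+3)/2 - o(1)) ≤ f_d(n) ≤ n^(d+1)`. -/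
theorem result : ∀ d : ℕ, 1 ≤ d →
    (∀ n : ℕ, 1 ≤ n → (∀ M : Fin n → Fin n → Prop, (∀ r, {c | M r c}.ncard ≤ d) →
      (∀ χ : Fin (n ^ (d + 1)) → Fin (n ^ (d + 1)) → Bool, HasMonoCopy M χ) ∧
      R M ≤ n ^ (d + 1)) ∧ f d n ≤ n ^ (d + 1)) ∧
    ∀ α : ℝ, α < ((d : ℝ) + 3) / 2 → ∀ᶠ n : ℕ in atTop, (n : ℝ) ^ α ≤ f d n := by
  intro d hd
  refine ⟨fun n hn => ⟨fun M hM => ⟨fun χ => hasMonoCopy hn M hM χ, R_le hn M hM⟩, ?_⟩,
    fun α hα => Pool.Agent.H76.TY.exponent hd hα⟩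
  unfold f
  apply csSup_le
  · refine ⟨R (fun _ _ : Fin n => False), fun _ _ => False, ?_, rfl⟩
    intro r
    simp
  · rintro m ⟨M, hM, rfl⟩
    exact R_le hn M hM

end Pool.Agent.H76.TY.RowExponentOld
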