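import Pool.Agent.H76.TY.Defs
import Pool.Agent.H76.LY.Tuple

/-! A random row has all its leaves in a given set of columns, distinct and in new cells, with
positive probability. -/

namespace Pool.Agent.H76.TY

open Finset Pool.Agent.H46.SR Pool.Agent.H46.TS
open Pool.Agent.H76.LX (pl_lt)
open Pool.Agent.H76.LY (Tuple_sum_ind Tuple_unif)

/-- power mean -/
theorem tup_pow {Ω : Type*} [Fintype Ω] [Nonempty Ω] (f : Ω → ℝ) (hf : ∀ b, 0 ≤ f b) (d : ℕ) :
    av f ^ d ≤ av (fun b => f b ^ d) := by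
  have hc : (0 : ℝ) < (Fintype.card Ω : ℝ) := by exact_mod_cast Fintype.card_pos (α := Ω)
  have h := Real.pow_arith_mean_le_arith_mean_pow (s := (univ : Finset Ω))
    (fun _ => 1 / (Fintype.card Ω : ℝ)) f (fun _ _ => by positivity)
    (by
      rw [Finset.sum_const, nsmul_eq_mul, Finset.card_univ]
      field_simp)
    (fun b _ => hf b) d
  unfold av
  rw [← Finset.mul_sum, ← Finset.mul_sum] at h
  calc ((∑ b, f b) / (Fintype.card Ω : ℝ)) ^ d
      = (1 / (Fintype.card Ω : ℝ) * ∑ b, f b) ^ d := by ring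
    _ ≤ 1 / (Fintype.card Ω : ℝ) * ∑ b, f b ^ d := h
    _ = (∑ b, f b ^ d) / (Fintype.card Ω : ℝ) := by ring

/-- a leaf is in `TT` with probability at least the density of `TT` -/
theorem tup_dens {m k z : ℕ} (hm : m = k * z) (hk : 0 < k) (hz : 0 < z) (TT : Finset (Fin m))
    (W : Fin m → Fin m → Fin m) (hW : ∀ b Y, (W b Y).val = pl z b.val Y.val) :
    (TT.card : ℝ) / (m : ℝ) ≤ av (fun b : Fin m => av (fun Y : Fin m => ind (W b Y ∈ TT))) := by
  classical
  have hm0 : 0 < m := by rw [hm]; exact Nat.mul_pos hk hz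
  have hmR : (0 : ℝ) < (m : ℝ) := by exact_mod_cast hm0
  have : Nonempty (Fin m) := ⟨⟨0, hm0⟩⟩
  have h1 := Tuple_unif (ι := Unit) hm hk hz () (fun x : ℕ => ¬ ∃ h : x < m, (⟨x, h⟩ : Fin m) ∈ TT)
  rw [av_prod] at h1
  have h2 : ∀ b : Fin m, av (fun c : Unit → Fin m =>
      ind ((fun x : ℕ => ¬ ∃ h : x < m, (⟨x, h⟩ : Fin m) ∈ TT) (pl z b.val (c ()).val))) =
      1 - av (fun Y : Fin m => ind (W b Y ∈ TT)) := by
    intro b
    rw [av_coord () (fun Y : Fin m =>
      ind ((fun x : ℕ => ¬ ∃ h : x < m, (⟨x, h⟩ : Fin m) ∈ TT) (pl z b.val Y.val)))]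
    have h3 : ∀ Y : Fin m,
        ind ((fun x : ℕ => ¬ ∃ h : x < m, (⟨x, h⟩ : Fin m) ∈ TT) (pl z b.val Y.val)) =
          1 + (-1) * ind (W b Y ∈ TT) := by
      intro Y
      show ind (¬ ∃ h : pl z b.val Y.val < m, (⟨pl z b.val Y.val, h⟩ : Fin m) ∈ TT) = _
      rw [ind_not]
      have h4 : (∃ h : pl z b.val Y.val < m, (⟨pl z b.val Y.val, h⟩ : Fin m) ∈ TT) ↔
          W b Y ∈ TT := by
        have h6 : ∀ h : pl z b.val Y.val < m, (⟨pl z b.val Y.val, h⟩ : Fin m) = W b Y := by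
          intro h
          apply Fin.ext
          exact (hW b Y).symm
        constructor
        · rintro ⟨h, h5⟩
          rw [h6 h] at h5
          exact h5
        · intro h5
          have h7 : pl z b.val Y.val < m := by
            rw [← hW b Y]
            exact (W b Y).2
          refine ⟨h7, ?_⟩
          rw [h6 h7]
          exact h5
      rw [propext h4]
      ring
    rw [av_congr h3, av_add (fun _ => 1) (fun Y => (-1) * ind (W b Y ∈ TT)), av_mul_left,
      av_const]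
    ring
  have h1' : av (fun b : Fin m => 1 + (-1) * av (fun Y : Fin m => ind (W b Y ∈ TT))) ≤
      ((univ.filter (fun x : Fin m =>
        (fun x : ℕ => ¬ ∃ h : x < m, (⟨x, h⟩ : Fin m) ∈ TT) x.val)).card : ℝ) / (m : ℝ) := by
    refine le_trans (le_of_eq ?_) h1
    apply av_congr
    intro b
    rw [h2 b]
    ring
  rw [av_add (fun _ => 1) (fun b : Fin m => (-1) * av (fun Y : Fin m => ind (W b Y ∈ TT))),
    av_mul_left, av_const] at h1'
  have h5 : (univ.filter (fun x : Fin m =>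
      (fun x : ℕ => ¬ ∃ h : x < m, (⟨x, h⟩ : Fin m) ∈ TT) x.val)) = univ \ TT := by
    ext x
    simp
  rw [h5] at h1'
  have h6 : ((univ \ TT).card : ℝ) = (m : ℝ) - (TT.card : ℝ) := by
    rw [Finset.card_sdiff_of_subset (Finset.subset_univ _), Finset.card_univ, Fintype.card_fin,
      Nat.cast_sub]
    have := Finset.card_le_univ TT
    rwa [Fintype.card_fin] at this
  rw [h6, sub_div, div_self hmR.ne'] at h1'
  linarith

/-- Proof: given the base column `b`, the leaves are independent and uniform in the block of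
length `z` of `b`, so all leaves are in `TT` with probability `av_b (δ b) ^ d ≥ (av_b δ b) ^ d =
(|TT| / z^D) ^ d` (power mean, `inner_le..` or `Real.pow_arith_mean_le_arith_mean_pow`); two leaves
are equal with probability at most `1 / z`; a leaf is uniform in `Fin (z ^ D)`, so it is in `TT`
and in a cell of `S` with probability at most `|S| * z ^ (D - τ - 2) / z ^ D ≤ d / z`. -/
theorem tup {z d D τ : ℕ} (hz : 2 ≤ z) (hD : 1 ≤ D) (TT : Finset (Fin (z ^ D)))
    (e : Fin (z ^ D) → ℕ) (S : Finset ℕ)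
    (h4 : ∀ b ∈ TT, (univ.filter (fun b' => e b' = e b)).card * z ^ (τ + 2) ≤ z ^ D)
    (hS : S.card ≤ d * z ^ (τ + 1)) :
    ((TT.card : ℝ) / (z : ℝ) ^ D) ^ d - 2 * (d : ℝ) ^ 2 / z ≤
      av (fun r : Rw z d D => ind (∀ w : Fin d → Fin (z ^ D), (∀ l, (w l).val = lfN r l) →
        (∀ l, w l ∈ TT) ∧ (∀ l l', l ≠ l' → w l ≠ w l') ∧ ∀ l, e (w l) ∉ S)) := by
  classical
  have hz0 : 0 < z := by omega
  have hm0 : 0 < z ^ D := pow_pos hz0 _
  have hzR : (0 : ℝ) < z := by exact_mod_cast hz0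
  have hmR : (0 : ℝ) < (z : ℝ) ^ D := pow_pos hzR _
  have : Nonempty (Fin (z ^ D)) := ⟨⟨0, hm0⟩⟩
  have hdv : z ∣ z ^ D := dvd_pow_self z (by omega)
  have hk : 0 < z ^ (D - 1) := pow_pos hz0 _
  have hmk : z ^ D = z ^ (D - 1) * z := by
    rw [← pow_succ]
    congr 1
    omega
  obtain ⟨W, hW⟩ : ∃ W : Fin (z ^ D) → Fin (z ^ D) → Fin (z ^ D), ∀ b Y,
      (W b Y).val = pl z b.val Y.val :=
    ⟨fun b Y => ⟨pl z b.val Y.val, pl_lt hz0 hdv b.2 _⟩, fun _ _ => rfl⟩
  obtain ⟨B, hB⟩ : ∃ B : Rw z d D → Prop, ∀ q, B q ↔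
      ∀ w : Fin d → Fin (z ^ D), (∀ l, (w l).val = lfN q l) →
        (∀ l, w l ∈ TT) ∧ (∀ l l', l ≠ l' → w l ≠ w l') ∧ ∀ l, e (w l) ∉ S :=
    ⟨_, fun _ => Iff.rfl⟩
  have hgoal : av (fun r : Rw z d D => ind (∀ w : Fin d → Fin (z ^ D),
      (∀ l, (w l).val = lfN r l) →
        (∀ l, w l ∈ TT) ∧ (∀ l l', l ≠ l' → w l ≠ w l') ∧ ∀ l, e (w l) ∉ S)) =
      av (fun r : Rw z d D => ind (B r)) := by
    apply av_congr
    intro r
    rw [propext (hB r)]
  rw [hgoal]
  -- part (1)
  have hP1 : ((TT.card : ℝ) / (z : ℝ) ^ D) ^ d ≤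
      av (fun q : Rw z d D => ind (∀ l, W q.1 (q.2 l) ∈ TT)) := by
    have h1 : av (fun q : Rw z d D => ind (∀ l, W q.1 (q.2 l) ∈ TT)) =
        av (fun b : Fin (z ^ D) => av (fun Y : Fin (z ^ D) => ind (W b Y ∈ TT)) ^ d) := by
      rw [av_prod]
      apply av_congr
      intro b
      show av (fun c : Fin d → Fin (z ^ D) => ind (∀ l, W b (c l) ∈ TT)) = _
      simp only [ind_forall]
      rw [av_pi_prod (fun (_ : Fin d) (Y : Fin (z ^ D)) => ind (W b Y ∈ TT)),
        Finset.prod_const, Finset.card_univ, Fintype.card_fin]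
    rw [h1]
    refine le_trans ?_ (tup_pow _ (fun b => av_nonneg (fun _ => ind_nonneg _)) d)
    have h2 := tup_dens hmk hk hz0 TT W hW
    push_cast at h2
    exact pow_le_pow_left₀ (by positivity) h2 d
  -- part (2)
  have hP2 : av (fun q : Rw z d D => ind (¬ Function.Injective (fun l => (q.2 l).val % z))) ≤
      (d : ℝ) ^ 2 / (z : ℝ) := by
    rw [av_prod]
    refine le_trans (av_mono (g := fun _ => (d : ℝ) ^ 2 / (z : ℝ)) (fun b => ?_)) (av_const _).le
    show av (fun c : Fin d → Fin (z ^ D) =>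
      ind (¬ Function.Injective (fun l => (c l).val % z))) ≤ (d : ℝ) ^ 2 / (z : ℝ)
    have h1 := av_inj (J := Fin d) hm0 (fun Y : Fin (z ^ D) => Y.val % z) (ρ := 1 / (z : ℝ))
      (by
        intro v
        have h2 : ∀ (m : ℕ) (_ : m = z ^ (D - 1) * z),
            av (fun X : Fin m => ind (X.val % z = v)) ≤ 1 / (z : ℝ) := by
          intro m hm
          subst hm
          exact av_mod_le hk
        exact h2 _ hmk)
    rw [Fintype.card_fin] at h1
    have h3 : ∀ c : Fin d → Fin (z ^ D), ind (¬ Function.Injective (fun l => (c l).val % z)) =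
        1 + (-1) * ind (Function.Injective (fun l => (c l).val % z)) := by
      intro c
      rw [ind_not]
      ring
    rw [av_congr h3, av_add (fun _ => 1)
      (fun c : Fin d → Fin (z ^ D) => (-1) * ind (Function.Injective (fun l => (c l).val % z))),
      av_mul_left, av_const]
    have h4 : (d : ℝ) ^ 2 / (z : ℝ) = (d : ℝ) ^ 2 * (1 / (z : ℝ)) := by ring
    rw [h4]
    linarith
  -- part (3), one value
  have hP3 : ∀ (l : Fin d) (v : ℕ), av (fun q : Rw z d D =>
      ind (W q.1 (q.2 l) ∈ TT ∧ e (W q.1 (q.2 l)) = v)) ≤ 1 / (z : ℝ) ^ (τ + 2) := by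
    intro l v
    have hpos : (0 : ℝ) < (z : ℝ) ^ (τ + 2) := pow_pos hzR _
    by_cases hex : ∃ b, b ∈ TT ∧ e b = v
    · obtain ⟨b, hb, hv⟩ := hex
      have h5 := h4 b hb
      rw [hv] at h5
      have h6 : ∀ q : Rw z d D, ind (W q.1 (q.2 l) ∈ TT ∧ e (W q.1 (q.2 l)) = v) ≤
          ind ((fun x : ℕ => ∃ h : x < z ^ D, e ⟨x, h⟩ = v) (pl z q.1.val (q.2 l).val)) := by
        intro q
        apply ind_mono
        rintro ⟨-, h⟩
        refine ⟨pl_lt hz0 hdv q.1.2 _, ?_⟩
        rw [← h]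
        congr 1
        apply Fin.ext
        exact (hW _ _).symm
      refine (av_mono h6).trans ((Tuple_unif hmk hk hz0 l
        (fun x : ℕ => ∃ h : x < z ^ D, e ⟨x, h⟩ = v)).trans ?_)
      have h7 : (univ.filter (fun x : Fin (z ^ D) =>
          (fun x : ℕ => ∃ h : x < z ^ D, e ⟨x, h⟩ = v) x.val)) =
          univ.filter (fun b' => e b' = v) := by
        apply Finset.filter_congr
        intro x _
        exact ⟨fun ⟨_, h⟩ => h, fun h => ⟨x.2, h⟩⟩
      rw [h7]
      have h8 : ((univ.filter (fun b' => e b' = v)).card : ℝ) * (z : ℝ) ^ (τ + 2) ≤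
          (z : ℝ) ^ D := by
        exact_mod_cast h5
      push_cast
      rw [div_le_div_iff₀ hmR hpos, one_mul]
      exact h8
    · have h5 : ∀ q : Rw z d D, ind (W q.1 (q.2 l) ∈ TT ∧ e (W q.1 (q.2 l)) = v) = 0 := by
        intro q
        apply ind_neg
        rintro ⟨h, h'⟩
        exact hex ⟨_, h, h'⟩
      rw [av_congr h5, av_const]
      positivity
  -- part (3)
  have hP4 : ∀ l : Fin d, av (fun q : Rw z d D =>
      ind (W q.1 (q.2 l) ∈ TT ∧ e (W q.1 (q.2 l)) ∈ S)) ≤ (d : ℝ) / (z : ℝ) := by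
    intro l
    have h5 : ∀ q : Rw z d D, ind (W q.1 (q.2 l) ∈ TT ∧ e (W q.1 (q.2 l)) ∈ S) ≤
        ∑ v ∈ S, ind (W q.1 (q.2 l) ∈ TT ∧ e (W q.1 (q.2 l)) = v) := by
      intro q
      by_cases h : W q.1 (q.2 l) ∈ TT ∧ e (W q.1 (q.2 l)) ∈ S
      · rw [ind_pos h]
        have h6 := Finset.single_le_sum
          (f := fun v => ind (W q.1 (q.2 l) ∈ TT ∧ e (W q.1 (q.2 l)) = v)) (s := S)
          (fun v _ => ind_nonneg _) h.2
        refine le_trans (le_of_eq ?_) h6
        exact (ind_pos ⟨h.1, rfl⟩).symm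
      · rw [ind_neg h]
        exact Finset.sum_nonneg (fun _ _ => ind_nonneg _)
    refine (av_mono h5).trans ?_
    rw [av_sum]
    refine (Finset.sum_le_sum (fun v _ => hP3 l v)).trans ?_
    rw [Finset.sum_const, nsmul_eq_mul]
    have h6 : (S.card : ℝ) ≤ (d : ℝ) * (z : ℝ) ^ (τ + 1) := by exact_mod_cast hS
    have hpos : (0 : ℝ) < (z : ℝ) ^ (τ + 2) := pow_pos hzR _
    rw [mul_one_div, div_le_div_iff₀ hpos hzR]
    calc (S.card : ℝ) * z ≤ ((d : ℝ) * (z : ℝ) ^ (τ + 1)) * z :=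
          mul_le_mul_of_nonneg_right h6 hzR.le
      _ = (d : ℝ) * (z : ℝ) ^ (τ + 2) := by ring
  -- the pointwise bound
  have hpt : ∀ q : Rw z d D, ind (∀ l, W q.1 (q.2 l) ∈ TT) ≤ ind (B q) +
      (ind (¬ Function.Injective (fun l => (q.2 l).val % z)) +
        ∑ l : Fin d, ind (W q.1 (q.2 l) ∈ TT ∧ e (W q.1 (q.2 l)) ∈ S)) := by
    intro q
    have hn2 : 0 ≤ ∑ l : Fin d, ind (W q.1 (q.2 l) ∈ TT ∧ e (W q.1 (q.2 l)) ∈ S) :=
      Finset.sum_nonneg (fun _ _ => ind_nonneg _)
    have hn1 := ind_nonneg (¬ Function.Injective (fun l => (q.2 l).val % z))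
    have hn0 := ind_nonneg (B q)
    by_cases hT : ∀ l, W q.1 (q.2 l) ∈ TT
    · rw [ind_pos hT]
      by_cases hI : Function.Injective (fun l => (q.2 l).val % z)
      · by_cases hex : ∃ l, e (W q.1 (q.2 l)) ∈ S
        · obtain ⟨l, hl⟩ := hex
          have h6 := Finset.single_le_sum
            (f := fun l : Fin d => ind (W q.1 (q.2 l) ∈ TT ∧ e (W q.1 (q.2 l)) ∈ S))
            (s := univ) (fun v _ => ind_nonneg _) (mem_univ l)
          simp only [ind_pos (show W q.1 (q.2 l) ∈ TT ∧ e (W q.1 (q.2 l)) ∈ S from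
            ⟨hT l, hl⟩)] at h6
          linarith
        · have hBq : B q := by
            rw [hB]
            intro w hw
            have hwW : ∀ l, w l = W q.1 (q.2 l) := by
              intro l
              apply Fin.ext
              rw [hw l, hW]
              rfl
            refine ⟨fun l => ?_, fun l l' hne heq => ?_, fun l h => ?_⟩
            · rw [hwW l]
              exact hT l
            · apply hne
              apply hI
              show (q.2 l).val % z = (q.2 l').val % z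
              have h7 := congrArg Fin.val heq
              rw [hwW l, hwW l', hW, hW] at h7
              have h8 := congrArg (fun x => x % z) h7
              simp only [pl_mod] at h8
              exact h8
            · rw [hwW l] at h
              exact hex ⟨l, h⟩
          rw [ind_pos hBq]
          linarith
      · rw [ind_pos hI]
        linarith
    · rw [ind_neg hT]
      linarith
  have hmain := av_mono hpt
  rw [av_add, av_add, av_sum] at hmain
  have hs3 : ∑ l : Fin d, av (fun q : Rw z d D =>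
      ind (W q.1 (q.2 l) ∈ TT ∧ e (W q.1 (q.2 l)) ∈ S)) ≤ (d : ℝ) ^ 2 / z := by
    refine (Finset.sum_le_sum (fun l _ => hP4 l)).trans (le_of_eq ?_)
    rw [Finset.sum_const, Finset.card_univ, Fintype.card_fin, nsmul_eq_mul]
    ring
  have herr : 2 * (d : ℝ) ^ 2 / z = (d : ℝ) ^ 2 / z + (d : ℝ) ^ 2 / z := by ring
  rw [herr]
  linarith

end Pool.Agent.H76.TY
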