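import Pool.Agent.H68.RS.Main

/-! An upper bound for matrices with few 1-entries in each row and few non-zero columns. -/

namespace Pool.Agent.H76.TY

open Finset Pool.Agent.H68.RS

/-- The thresholds, indexed by the number of 1-entries of the row that are still to be placed. -/
def W (n m0 : ℕ) : ℕ → ℕ
  | 0 => 1
  | e + 1 => m0 * (W n m0 e - 1) + n

theorem W_pos {n : ℕ} (hn : 1 ≤ n) (m0 : ℕ) (e : ℕ) : 0 < W n m0 e := by
  cases e with
  | zero => exact Nat.one_pos
  | succ e => rw [W]; omega

theorem W_sub_le (n m0 : ℕ) (e : ℕ) : W n m0 e - 1 ≤ n * ∑ j ∈ range e, m0 ^ j := by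
  induction e with
  | zero => simp [W]
  | succ e ih =>
    rw [W, Finset.sum_range_succ']
    have h1 : m0 * (W n m0 e - 1) ≤ m0 * (n * ∑ j ∈ range e, m0 ^ j) := Nat.mul_le_mul_left _ ih
    have h2 : m0 * (n * ∑ j ∈ range e, m0 ^ j) = n * ∑ j ∈ range e, m0 ^ (j + 1) := by
      simp only [pow_succ, Finset.mul_sum]
      exact Finset.sum_congr rfl (fun j _ => by ring)
    rw [mul_add, pow_zero, mul_one]
    omega

theorem W_le (n m0 : ℕ) {e : ℕ} (he : 1 ≤ e) : W n m0 e ≤ n * ∑ j ∈ range e, m0 ^ j := by
  obtain ⟨e, rfl⟩ : ∃ e', e = e' + 1 := ⟨e - 1, by omega⟩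
  rw [W, Finset.sum_range_succ']
  have h1 : m0 * (W n m0 e - 1) ≤ m0 * (n * ∑ j ∈ range e, m0 ^ j) :=
    Nat.mul_le_mul_left _ (W_sub_le n m0 e)
  have h2 : m0 * (n * ∑ j ∈ range e, m0 ^ j) = n * ∑ j ∈ range e, m0 ^ (j + 1) := by
    simp only [pow_succ, Finset.mul_sum]
    exact Finset.sum_congr rfl (fun j _ => by ring)
  rw [mul_add, pow_zero, mul_one]
  omega

open scoped Classical in
theorem core_cols {n d m0 : ℕ} (hn : 1 ≤ n) (hd1 : 1 ≤ d) (hm0 : 1 ≤ m0)
    (M : Fin n → Fin n → Prop)
    (hd : ∀ r, (univ.filter (fun c => M r c)).card ≤ d)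
    (hcol : (univ.filter (fun c => ∃ r, M r c)).card ≤ m0) (χ : ℕ → ℕ → Bool) {N : ℕ}
    (hN : N = n ^ 2 * ∑ j ∈ range d, m0 ^ j) :
    ∃ (b : Bool) (f g : Fin n → ℕ), StrictMono f ∧ StrictMono g ∧ (∀ r, f r < N) ∧
      (∀ c, g c < N) ∧ ∀ r c, M r c → χ (f r) (g c) = b := by
  by_contra hno
  set C : Finset (Fin n) := univ.filter (fun c => ∃ r, M r c) with hC
  -- numbers of 1-entries in the columns and the starts of the column blocks
  set k : ℕ → ℕ := fun c => (univ.filter (fun r : Fin n => ∃ h : c < n, M r ⟨c, h⟩)).card with hk
  set st : ℕ → ℕ := fun m => ∑ c ∈ range m, (k c * (n - 1) + 1) with hst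
  have hst1 : ∀ m, st (m + 1) = st m + (k m * (n - 1) + 1) := fun m => by
    rw [hst]; simp [Finset.sum_range_succ]
  have hstmono : Monotone st := monotone_nat_of_le_succ (fun m => by rw [hst1]; omega)
  -- total number of columns
  have hksum : ∑ c ∈ range n, k c ≤ d * n := by
    have h1 : ∑ c ∈ range n, k c = ∑ c : Fin n, (univ.filter (fun r : Fin n => M r c)).card := by
      rw [Finset.sum_range]
      apply Finset.sum_congr rfl
      intro c _
      simp only [hk]
      congr 1
      ext r
      simp
    have h2 : ∑ c : Fin n, (univ.filter (fun r : Fin n => M r c)).card =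
        ∑ r : Fin n, (univ.filter (fun c : Fin n => M r c)).card := by
      simp only [Finset.card_filter]
      rw [Finset.sum_comm]
    rw [h1, h2]
    calc _ ≤ ∑ _r : Fin n, d := Finset.sum_le_sum (fun r _ => hd r)
      _ = d * n := by simp [mul_comm]
  have hstn : st n ≤ N := by
    have h1 : st n = (∑ c ∈ range n, k c) * (n - 1) + n := by
      rw [hst]
      simp [Finset.sum_add_distrib, Finset.sum_mul]
    have h2 : d ≤ ∑ j ∈ range d, m0 ^ j := by
      calc d = ∑ _j ∈ range d, 1 := by simp
        _ ≤ ∑ j ∈ range d, m0 ^ j := Finset.sum_le_sum (fun j _ => Nat.one_le_pow _ _ hm0)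
    obtain ⟨t, rfl⟩ : ∃ t, n = t + 1 := ⟨n - 1, by omega⟩
    rw [h1, hN]
    simp only [Nat.add_sub_cancel]
    calc (∑ c ∈ range (t + 1), k c) * t + (t + 1) ≤ (d * (t + 1)) * t + d * (t + 1) := by
          have := Nat.mul_le_mul_right t hksum
          have h3 : t + 1 ≤ d * (t + 1) := Nat.le_mul_of_pos_left _ hd1
          omega
      _ = (t + 1) ^ 2 * d := by ring
      _ ≤ (t + 1) ^ 2 * ∑ j ∈ range d, m0 ^ j := Nat.mul_le_mul_left _ h2
  set T := n * ∑ j ∈ range d, m0 ^ j with hT
  have hNT : N = n * T := by rw [hN, hT]; ring
  have hrow : ∀ (r : Fin n) (x : ℕ), x < T → (r : ℕ) * T + x < N := by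
    intro r x hx
    have h1 : (r : ℕ) + 1 ≤ n := r.2
    have h2 : ((r : ℕ) + 1) * T ≤ n * T := Nat.mul_le_mul_right _ h1
    rw [Nat.add_mul, one_mul] at h2
    omega
  -- number of 1-entries of row `r` in the first `m` columns
  set hh : Fin n → ℕ → ℕ := fun r m => (univ.filter (fun c : Fin n => (c : ℕ) < m ∧ M r c)).card
    with hhdef
  have hhle : ∀ r m, hh r m ≤ d := by
    intro r m
    refine le_trans (Finset.card_le_card ?_) (hd r)
    intro c hc
    rw [mem_filter] at hc ⊢
    exact ⟨hc.1, hc.2.2⟩
  -- the induction
  have key : ∀ m, m ≤ n → ∃ (g : ℕ → ℕ) (S : Fin n → Finset ℕ),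
      (∀ c, c < m → st c ≤ g c ∧ g c < st (c + 1)) ∧
      ∀ r, S r ⊆ range T ∧ W n m0 (d - hh r m) ≤ (S r).card ∧
        ∀ c : Fin n, (c : ℕ) < m → M r c → ∀ x ∈ S r, χ ((r : ℕ) * T + x) (g c) = true := by
    intro m
    induction m with
    | zero =>
      intro _
      refine ⟨fun _ => 0, fun _ => range T, by simp, ?_⟩
      intro r
      refine ⟨Subset.rfl, ?_, by simp⟩
      have h0 : hh r 0 = 0 := by simp [hhdef]
      rw [h0, Nat.sub_zero, card_range, hT]
      exact W_le n m0 hd1
    | succ m ih =>
      intro hm
      obtain ⟨g, S, hg, hS⟩ := ih (by omega)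
      set cm : Fin n := ⟨m, by omega⟩ with hcm
      -- candidates
      set J : Finset ℕ := Finset.Ico (st m) (st (m + 1)) with hJ
      have hJcard : J.card = k m * (n - 1) + 1 := by
        rw [hJ, Nat.card_Ico, hst1]; omega
      by_cases hgood : ∃ j ∈ J, ∀ r, M r cm →
          W n m0 (d - hh r m - 1) ≤ ((S r).filter (fun x => χ ((r : ℕ) * T + x) j = true)).card
      · obtain ⟨j, hj, hjr⟩ := hgood
        refine ⟨fun c => if c = m then j else g c,
          fun r => if M r cm then (S r).filter (fun x => χ ((r : ℕ) * T + x) j = true) else S r,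
          ?_, ?_⟩
        · intro c hc
          by_cases hcm' : c = m
          · subst hcm'
            simp only [if_true]
            rw [hJ, Finset.mem_Ico] at hj
            exact hj
          · simp only [hcm', if_false]
            exact hg c (by omega)
        · intro r
          obtain ⟨h1, h2, h3⟩ := hS r
          by_cases hMr : M r cm
          · simp only [hMr, if_true]
            have hhs : hh r (m + 1) = hh r m + 1 := by
              rw [hhdef]
              simp only
              rw [← Finset.card_insert_of_notMem (s := univ.filter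
                (fun c : Fin n => (c : ℕ) < m ∧ M r c)) (a := cm) (by simp [hcm])]
              congr 1
              ext c
              simp only [mem_filter, mem_univ, true_and, mem_insert]
              constructor
              · rintro ⟨h4, h5⟩
                rcases Nat.lt_succ_iff_lt_or_eq.mp h4 with h6 | h6
                · exact Or.inr ⟨h6, h5⟩
                · exact Or.inl (Fin.ext h6)
              · rintro (rfl | ⟨h4, h5⟩)
                · exact ⟨by simp [hcm], hMr⟩
                · exact ⟨by omega, h5⟩
            refine ⟨(Finset.filter_subset _ _).trans h1, ?_, ?_⟩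
            · rw [hhs, ← Nat.sub_sub]
              exact hjr r hMr
            · intro c hc hMc x hx
              rw [mem_filter] at hx
              by_cases hcm' : (c : ℕ) = m
              · simp only [hcm', if_true]
                exact hx.2
              · simp only [hcm', if_false]
                exact h3 c (by omega) hMc x hx.1
          · simp only [hMr, if_false]
            have hhs : hh r (m + 1) = hh r m := by
              rw [hhdef]
              simp only
              congr 1
              ext c
              simp only [mem_filter, mem_univ, true_and]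
              constructor
              · rintro ⟨h4, h5⟩
                rcases Nat.lt_succ_iff_lt_or_eq.mp h4 with h6 | h6
                · exact ⟨h6, h5⟩
                · exfalso
                  apply hMr
                  have : c = cm := Fin.ext h6
                  rw [← this]; exact h5
              · rintro ⟨h4, h5⟩
                exact ⟨by omega, h5⟩
            refine ⟨h1, ?_, ?_⟩
            · rw [hhs]; exact h2
            · intro c hc hMc x hx
              by_cases hcm' : (c : ℕ) = m
              · exfalso
                apply hMr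
                have : c = cm := Fin.ext hcm'
                rw [← this]; exact hMc
              · simp only [hcm', if_false]
                exact h3 c (by omega) hMc x hx
      · -- a big block of the other colour
        exfalso
        push Not at hgood
        have : Nonempty (Fin n) := ⟨cm⟩
        choose! ρ hρM hρ using hgood
        set A : Finset (Fin n) := univ.filter (fun r => M r cm) with hA
        have hAk : A.card = k m := by
          rw [hA, hk]
          simp only
          congr 1
          ext r
          simp only [mem_filter, mem_univ, true_and]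
          constructor
          · intro h; exact ⟨by omega, h⟩
          · rintro ⟨_, h⟩; exact h
        have hmaps : ∀ j ∈ J, ρ j ∈ A := by
          intro j hj
          rw [hA, mem_filter]
          exact ⟨mem_univ _, hρM j hj⟩
        obtain ⟨r, hrA, hrcard⟩ := Finset.exists_lt_card_fiber_of_mul_lt_card_of_maps_to
          (n := n - 1) hmaps (by rw [hAk, hJcard]; omega)
        obtain ⟨Y, hYsub, hYcard⟩ := Finset.exists_subset_card_eq
          (show n ≤ (J.filter (fun j => ρ j = r)).card by omega)
        obtain ⟨h1, h2, h3⟩ := hS r
        -- rows of `S r` that have the other colour on all columns of `Y` that are needed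
        set X : Finset ℕ := (S r).filter
          (fun x => ∀ c ∈ C, χ ((r : ℕ) * T + x) (Y.orderEmbOfFin hYcard c) = false) with hX
        have hMr : M r cm := by
          rw [hA, mem_filter] at hrA
          exact hrA.2
        have hhlt : hh r m < d := by
          have h4 : hh r m + 1 ≤ hh r (m + 1) := by
            rw [hhdef]
            simp only
            rw [← Finset.card_insert_of_notMem (s := univ.filter
                (fun c : Fin n => (c : ℕ) < m ∧ M r c)) (a := cm) (by simp [hcm])]
            apply Finset.card_le_card
            intro c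
            simp only [mem_filter, mem_univ, true_and, mem_insert]
            rintro (rfl | ⟨h4, h5⟩)
            · exact ⟨by simp [hcm], hMr⟩
            · exact ⟨by omega, h5⟩
          have := hhle r (m + 1)
          omega
        have hXcard : n ≤ X.card := by
          have hsplit : (S r).card ≤ X.card + (C.biUnion (fun c =>
              (S r).filter (fun x => χ ((r : ℕ) * T + x) (Y.orderEmbOfFin hYcard c) = true))).card := by
            rw [← Finset.card_union_of_disjoint]
            · apply Finset.card_le_card
              intro x hx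
              rw [mem_union]
              by_cases hall : ∀ c ∈ C, χ ((r : ℕ) * T + x) (Y.orderEmbOfFin hYcard c) = false
              · left; rw [hX, mem_filter]; exact ⟨hx, hall⟩
              · right
                push Not at hall
                obtain ⟨j, hj, hne⟩ := hall
                rw [mem_biUnion]
                exact ⟨j, hj, by rw [mem_filter]; exact ⟨hx, by simpa using hne⟩⟩
            · rw [Finset.disjoint_left]
              intro x hx hx'
              rw [hX, mem_filter] at hx
              rw [mem_biUnion] at hx'
              obtain ⟨j, hj, hjx⟩ := hx'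
              rw [mem_filter] at hjx
              rw [hx.2 j hj] at hjx
              exact absurd hjx.2 (by simp)
          have hbi : (C.biUnion (fun c =>
              (S r).filter (fun x => χ ((r : ℕ) * T + x) (Y.orderEmbOfFin hYcard c) = true))).card ≤
              m0 * (W n m0 (d - hh r m - 1) - 1) := by
            have h8 : (C.biUnion (fun c =>
              (S r).filter (fun x => χ ((r : ℕ) * T + x) (Y.orderEmbOfFin hYcard c) = true))).card ≤
              C.card * (W n m0 (d - hh r m - 1) - 1) := by
              apply Finset.card_biUnion_le_card_mul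
              intro c _
              have h5 := hYsub (Y.orderEmbOfFin_mem hYcard c)
              rw [mem_filter] at h5
              have h6 := hρ _ h5.1
              rw [h5.2] at h6
              omega
            exact h8.trans (Nat.mul_le_mul_right _ hcol)
          have hpow : W n m0 (d - hh r m) = m0 * (W n m0 (d - hh r m - 1) - 1) + n := by
            have : d - hh r m = (d - hh r m - 1) + 1 := by omega
            conv_lhs => rw [this]
            rfl
          omega
        obtain ⟨X', hX'sub, hX'card⟩ := Finset.exists_subset_card_eq hXcard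
        apply hno
        refine ⟨false, fun a => (r : ℕ) * T + X'.orderEmbOfFin hX'card a,
          fun c => Y.orderEmbOfFin hYcard c, ?_, ?_, ?_, ?_, ?_⟩
        · intro a b hab
          have := (X'.orderEmbOfFin hX'card).strictMono hab
          simp only
          omega
        · exact (Y.orderEmbOfFin hYcard).strictMono
        · intro a
          have h5 := hX'sub (X'.orderEmbOfFin_mem hX'card a)
          rw [hX, mem_filter] at h5
          have h6 := h1 h5.1
          rw [mem_range] at h6
          exact hrow r _ h6
        · intro c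
          have h5 := hYsub (Y.orderEmbOfFin_mem hYcard c)
          rw [mem_filter, hJ, Finset.mem_Ico] at h5
          have h6 : st (m + 1) ≤ st n := hstmono hm
          exact lt_of_lt_of_le h5.1.2 (h6.trans hstn)
        · intro a c hac
          have h5 := hX'sub (X'.orderEmbOfFin_mem hX'card a)
          rw [hX, mem_filter] at h5
          exact h5.2 c (by rw [hC, mem_filter]; exact ⟨mem_univ _, a, hac⟩)
  obtain ⟨g, S, hg, hS⟩ := key n le_rfl
  have hne : ∀ r, (S r).Nonempty := by
    intro r
    rw [← Finset.card_pos]
    exact lt_of_lt_of_le (W_pos hn m0 _) (hS r).2.1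
  choose x hx using hne
  apply hno
  refine ⟨true, fun r => (r : ℕ) * T + x r, fun c => g c, ?_, ?_, ?_, ?_, ?_⟩
  · intro a b hab
    have h1 : x a < T := mem_range.mp ((hS a).1 (hx a))
    have h2 : (a : ℕ) + 1 ≤ b := hab
    have h3 : ((a : ℕ) + 1) * T ≤ b * T := Nat.mul_le_mul_right _ h2
    rw [Nat.add_mul, one_mul] at h3
    simp only
    omega
  · intro a b hab
    have h1 := (hg a a.2).2
    have h2 := (hg b b.2).1
    have h3 : st ((a : ℕ) + 1) ≤ st b := hstmono hab
    simp only
    omega
  · intro r
    exact hrow r _ (mem_range.mp ((hS r).1 (hx r)))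
  · intro c
    have h1 := (hg c c.2).2
    have h2 : st ((c : ℕ) + 1) ≤ st n := hstmono c.2
    simp only
    omega
  · intro r c hM
    exact (hS r).2.2 c c.2 hM _ (hx r)

/-- Proof: as `Pool.Agent.H68.RS.core`, with the thresholds `W d = 1`,
`W h = m * (W (h + 1) - 1) + n` instead of `n ^ (d - h)`: a strip of `T = W 0 ≤ n * ∑ j < d, m ^ j`
rows for every row of `M`, blocks of `k c * (n - 1) + 1` candidate columns. Failure gives a row `r`
and `n` candidate columns `Y`, each with less than `W (h + 1)` entries of colour `true` in `S r`;
only the at most `m` non-zero columns of `M` have to be blue: if `y_0 < .. < y_(n-1)` are the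
elements of `Y`, remove from `S r` the rows with an entry of colour `true` in one of the columns
`y_c`, `c` a non-zero column: at most `m * (W (h + 1) - 1)` rows, so `n` rows remain. -/
theorem hasMonoCopy_cols {n d m : ℕ} (hn : 1 ≤ n) (hd : 1 ≤ d) (hm : 1 ≤ m)
    (M : Fin n → Fin n → Prop) (hrow : ∀ r, {c | M r c}.ncard ≤ d)
    (hcol : {c | ∃ r, M r c}.ncard ≤ m)
    (χ : Fin (n ^ 2 * ∑ j ∈ range d, m ^ j) → Fin (n ^ 2 * ∑ j ∈ range d, m ^ j) → Bool) :
    HasMonoCopy M χ := by
  classical
  have hd' : ∀ r, (univ.filter (fun c => M r c)).card ≤ d := by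
    intro r
    have h1 := hrow r
    rw [Set.ncard_eq_toFinset_card'] at h1
    convert h1 using 2
    ext c
    simp
  have hcol' : (univ.filter (fun c => ∃ r, M r c)).card ≤ m := by
    have h1 := hcol
    rw [Set.ncard_eq_toFinset_card'] at h1
    convert h1 using 2
    ext c
    simp
  obtain ⟨b, f, g, hf, hg, hfN, hgN, hM⟩ := core_cols hn hd hm M hd' hcol'
    (fun i j => if h : i < n ^ 2 * ∑ j ∈ range d, m ^ j ∧ j < n ^ 2 * ∑ j ∈ range d, m ^ j
      then χ ⟨i, h.1⟩ ⟨j, h.2⟩ else false) rfl
  refine ⟨b, fun r => ⟨f r, hfN r⟩, fun c => ⟨g c, hgN c⟩, fun a b hab => hf hab,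
    fun a b hab => hg hab, ?_⟩
  intro r c hrc
  have := hM r c hrc
  rw [dif_pos ⟨hfN r, hgN c⟩] at this
  exact this

theorem R_le_cols {n d m : ℕ} (hn : 1 ≤ n) (hd : 1 ≤ d) (hm : 1 ≤ m)
    (M : Fin n → Fin n → Prop) (hrow : ∀ r, {c | M r c}.ncard ≤ d)
    (hcol : {c | ∃ r, M r c}.ncard ≤ m) :
    R M ≤ n ^ 2 * ∑ j ∈ range d, m ^ j :=
  Nat.sInf_le (fun χ => hasMonoCopy_cols hn hd hm M hrow hcol χ)

end Pool.Agent.H76.TY
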